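import Mathlib
import Pool.Agent.Lib.MP_df0165_co.Frac.Usage

set_option autoImplicit false
set_option linter.unusedSectionVars false

/-!
Iterated simplex integrals with a general terminal function, and the conservation identity
(survival = loss + growth) for the terminal functions `∏ a` and `c * ∏ a`.
-/

namespace Pool.Agent.Lib.NestedTrees

open Finset MeasureTheory intervalIntegral Pool.Agent.Lib.FracTree

variable {V : Type*}

/-- Iterated simplex integral with terminal function `F`. -/
noncomputable def KK (F : (V → ℝ) → ℝ → ℝ) (r : V → V → ℝ) : List V → (V → ℝ) → ℝ → ℝ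
  | [], a, c => F a c
  | q :: qs, a, c => ∫ t in (0 : ℝ)..c, KK F r qs (fun v => a v - t * r q v) (c - t)

lemma continuous_KK (F : (V → ℝ) → ℝ → ℝ) (hF : Continuous (fun p : (V → ℝ) × ℝ => F p.1 p.2))
    (r : V → V → ℝ) (qs : List V) :
    Continuous (fun p : (V → ℝ) × ℝ => KK F r qs p.1 p.2) := by
  induction qs with
  | nil => simpa only [KK] using hF
  | cons q qs ih =>
    simp only [KK]
    apply intervalIntegral.continuous_parametric_intervalIntegral_of_continuous
      (f := fun (p : (V → ℝ) × ℝ) (t : ℝ) => KK F r qs (fun v => p.1 v - t * r q v) (p.2 - t))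
    · have : (Function.uncurry fun (p : (V → ℝ) × ℝ) (t : ℝ) =>
          KK F r qs (fun v => p.1 v - t * r q v) (p.2 - t))
          = (fun p : (V → ℝ) × ℝ => KK F r qs p.1 p.2) ∘
            (fun x : ((V → ℝ) × ℝ) × ℝ => ((fun v => x.1.1 v - x.2 * r q v), x.1.2 - x.2)) := by
        funext x
        rfl
      rw [this]
      apply ih.comp
      fun_prop
    · fun_prop

lemma continuous_step (H : (V → ℝ) → ℝ → ℝ)
    (hH : Continuous (fun p : (V → ℝ) × ℝ => H p.1 p.2)) (ρ a : V → ℝ) (c : ℝ) :
    Continuous (fun t : ℝ => H (fun v => a v - t * ρ v) (c - t)) := by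
  have : (fun t : ℝ => H (fun v => a v - t * ρ v) (c - t))
      = (fun p : (V → ℝ) × ℝ => H p.1 p.2) ∘
        (fun t : ℝ => ((fun v => a v - t * ρ v), c - t)) := by
    funext t
    rfl
  rw [this]
  apply hH.comp
  fun_prop

lemma continuous_KK_step (F : (V → ℝ) → ℝ → ℝ)
    (hF : Continuous (fun p : (V → ℝ) × ℝ => F p.1 p.2))
    (r : V → V → ℝ) (qs : List V) (ρ a : V → ℝ) (c : ℝ) :
    Continuous (fun t : ℝ => KK F r qs (fun v => a v - t * ρ v) (c - t)) :=
  continuous_step (KK F r qs) (continuous_KK F hF r qs) ρ a c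

lemma KK_perm (F : (V → ℝ) → ℝ → ℝ) (hF : Continuous (fun p : (V → ℝ) × ℝ => F p.1 p.2))
    (r : V → V → ℝ) {l₁ l₂ : List V} (h : l₁.Perm l₂) :
    ∀ (a : V → ℝ) (c : ℝ), 0 ≤ c → KK F r l₁ a c = KK F r l₂ a c := by
  induction h with
  | nil => intro a c _; rfl
  | cons q _ ih =>
    intro a c hc
    simp only [KK]
    apply intervalIntegral.integral_congr
    intro t ht
    rw [Set.uIcc_of_le hc] at ht
    exact ih _ _ (by linarith [ht.2])
  | swap q q' l =>
    intro a c hc
    simp only [KK]
    rw [tri_swap (fun t s => KK F r l (fun v => a v - t * r q' v - s * r q v) (c - t - s)) _ c hc]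
    · apply intervalIntegral.integral_congr
      intro s _
      apply intervalIntegral.integral_congr
      intro t _
      simp only
      congr 1
      · funext v; ring
      · ring
    · have : (Function.uncurry fun (t s : ℝ) =>
          KK F r l (fun v => a v - t * r q' v - s * r q v) (c - t - s))
          = (fun p : (V → ℝ) × ℝ => KK F r l p.1 p.2) ∘
            (fun x : ℝ × ℝ => ((fun v => a v - x.1 * r q' v - x.2 * r q v), c - x.1 - x.2)) := by
        funext x
        rfl
      rw [this]
      apply (continuous_KK F hF r l).comp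
      fun_prop
  | trans _ _ ih₁ ih₂ =>
    intro a c hc
    rw [ih₁ a c hc, ih₂ a c hc]

/-- Terminal function of the vertex-rooted process. -/
noncomputable def FP (X : Finset V) (a : V → ℝ) (_ : ℝ) : ℝ := ∏ x ∈ X, a x

/-- Terminal function of the edge-rooted process. -/
noncomputable def FM (X : Finset V) (a : V → ℝ) (c : ℝ) : ℝ := c * ∏ x ∈ X, a x

lemma continuous_FP (X : Finset V) : Continuous (fun p : (V → ℝ) × ℝ => FP X p.1 p.2) := by
  unfold FP
  fun_prop

lemma continuous_FM (X : Finset V) : Continuous (fun p : (V → ℝ) × ℝ => FM X p.1 p.2) := by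
  unfold FM
  fun_prop

lemma KK_nonneg (F : (V → ℝ) → ℝ → ℝ) (hF : ∀ a c, 0 ≤ c → (∀ v, c ≤ a v) → 0 ≤ F a c)
    (r : V → V → ℝ) (hr : ∀ x y, r x y ≤ 1) :
    ∀ (qs : List V) (a : V → ℝ) (c : ℝ), 0 ≤ c → (∀ v, c ≤ a v) → 0 ≤ KK F r qs a c := by
  intro qs
  induction qs with
  | nil => intro a c hc ha; exact hF a c hc ha
  | cons q qs ih =>
    intro a c hc ha
    simp only [KK]
    apply intervalIntegral.integral_nonneg hc
    intro t ht
    apply ih _ _ (by linarith [ht.2])
    intro v
    have h1 := ha v
    have h2 : t * r q v ≤ t * 1 := mul_le_mul_of_nonneg_left (hr q v) ht.1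
    linarith

lemma FP_nonneg (X : Finset V) (a : V → ℝ) (c : ℝ) (hc : 0 ≤ c) (ha : ∀ v, c ≤ a v) :
    0 ≤ FP X a c := Finset.prod_nonneg (fun x _ => hc.trans (ha x))

lemma FM_nonneg (X : Finset V) (a : V → ℝ) (c : ℝ) (hc : 0 ≤ c) (ha : ∀ v, c ≤ a v) :
    0 ≤ FM X a c := mul_nonneg hc (Finset.prod_nonneg (fun x _ => hc.trans (ha x)))

/-- Linearity of the iterated integral in the terminal function. -/
lemma KK_add_sum {ι : Type*} (F F₀ : (V → ℝ) → ℝ → ℝ) (G : ι → (V → ℝ) → ℝ → ℝ) (w : ι → ℝ)
    (Z : Finset ι)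
    (hF₀ : Continuous (fun p : (V → ℝ) × ℝ => F₀ p.1 p.2))
    (hG : ∀ i, Continuous (fun p : (V → ℝ) × ℝ => G i p.1 p.2))
    (h : ∀ a c, 0 ≤ c → F a c = F₀ a c + ∑ z ∈ Z, w z * G z a c) (r : V → V → ℝ) :
    ∀ (qs : List V) (a : V → ℝ) (c : ℝ), 0 ≤ c →
      KK F r qs a c = KK F₀ r qs a c + ∑ z ∈ Z, w z * KK (G z) r qs a c := by
  intro qs
  induction qs with
  | nil => intro a c hc; exact h a c hc
  | cons q qs ih =>
    intro a c hc
    simp only [KK]
    rw [intervalIntegral.integral_congr (g := fun t =>
        KK F₀ r qs (fun v => a v - t * r q v) (c - t)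
          + ∑ z ∈ Z, w z * KK (G z) r qs (fun v => a v - t * r q v) (c - t))]
    · rw [intervalIntegral.integral_add, intervalIntegral.integral_finsetSum]
      · congr 1
        apply Finset.sum_congr rfl
        intro z _
        rw [intervalIntegral.integral_const_mul]
      · intro z _
        exact (continuous_const.mul (continuous_KK_step (G z) (hG z) r qs _ a c)).intervalIntegrable _ _
      · exact (continuous_KK_step F₀ hF₀ r qs _ a c).intervalIntegrable _ _
      · apply Continuous.intervalIntegrable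
        apply continuous_finsetSum
        intro z _
        exact continuous_const.mul (continuous_KK_step (G z) (hG z) r qs _ a c)
    · intro t ht
      rw [Set.uIcc_of_le hc] at ht
      exact ih _ _ (by linarith [ht.2])

lemma KK_append (F : (V → ℝ) → ℝ → ℝ) (r : V → V → ℝ) (q : V) :
    ∀ (qs : List V) (a : V → ℝ) (c : ℝ),
      KK F r (qs ++ [q]) a c = KK (fun a c => KK F r [q] a c) r qs a c := by
  intro qs
  induction qs with
  | nil => intro a c; rfl
  | cons p qs ih =>
    intro a c
    simp only [List.cons_append, KK]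
    apply intervalIntegral.integral_congr
    intro t _
    simp only
    rw [ih]
    simp only [KK]

variable [DecidableEq V]

/-- One step of the process: a new vertex is found or the time runs out. -/
lemma conserve_one (X : Finset V) (r : V → V → ℝ) (q : V) (a : V → ℝ) (c : ℝ) :
    FM X a c = KK (FP X) r [q] a c + ∑ z ∈ X, r q z * KK (FM (X.erase z)) r [q] a c := by
  simp only [KK, FP, FM]
  have hder : ∀ t ∈ Set.uIcc 0 c, HasDerivAt (fun t => -((c - t) * PP X a (r q) t))
      (PP X a (r q) t + (c - t) * QQ X a (r q) t) t := by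
    intro t _
    have h2 : HasDerivAt (fun t : ℝ => c - t) (-1) t := by
      simpa using (hasDerivAt_id t).const_sub c
    have := (h2.mul (hasDerivAt_PP X a (r q) t)).neg
    refine this.congr_deriv ?_
    ring
  have hP := continuous_PP X a (r q)
  have hQ := continuous_QQ X a (r q)
  have hint := intervalIntegral.integral_eq_sub_of_hasDerivAt hder
    (Continuous.intervalIntegrable (by fun_prop) _ _)
  have h1 : -((c - c) * PP X a (r q) c) - -((c - 0) * PP X a (r q) 0) = c * ∏ x ∈ X, a x := by
    rw [PP_zero]; ring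
  rw [h1] at hint
  rw [← hint, intervalIntegral.integral_add (hP.intervalIntegrable _ _)
    (Continuous.intervalIntegrable (by fun_prop) _ _)]
  congr 1
  have h2 : ∀ z ∈ X, r q z * ∫ t in (0 : ℝ)..c, (c - t) * ∏ x ∈ X.erase z, (a x - t * r q x)
      = ∫ t in (0 : ℝ)..c, r q z * ((c - t) * ∏ x ∈ X.erase z, (a x - t * r q x)) := by
    intro z _
    rw [intervalIntegral.integral_const_mul]
  rw [Finset.sum_congr rfl h2, ← intervalIntegral.integral_finsetSum]
  · apply intervalIntegral.integral_congr
    intro t _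
    simp only [QQ]
    rw [Finset.mul_sum]
    apply Finset.sum_congr rfl
    intro z _
    ring
  · intro z _
    apply Continuous.intervalIntegrable
    fun_prop

/-- Conservation for the iterated integrals. -/
lemma conserve (X : Finset V) (r : V → V → ℝ) (q : V) (qs : List V) (a : V → ℝ) (c : ℝ)
    (hc : 0 ≤ c) :
    KK (FM X) r qs a c = KK (FP X) r (qs ++ [q]) a c
      + ∑ z ∈ X, r q z * KK (FM (X.erase z)) r (qs ++ [q]) a c := by
  rw [KK_append]
  simp_rw [KK_append (FM (X.erase _)) r q qs]
  exact KK_add_sum (FM X) (fun a c => KK (FP X) r [q] a c)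
    (fun z a c => KK (FM (X.erase z)) r [q] a c) (fun z => r q z) X
    (continuous_KK _ (continuous_FP X) r [q])
    (fun z => continuous_KK _ (continuous_FM (X.erase z)) r [q])
    (fun a c _ => conserve_one X r q a c) r qs a c hc

end Pool.Agent.Lib.NestedTrees
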