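import Mathlib
import Pool.Agent.Lib.MP_d51747_co.Nested.Functional

set_option autoImplicit false
set_option linter.unusedSectionVars false

/-!
Total mass of the growth process with a general terminal function, and an abstract upper bound.
-/

namespace Pool.Agent.Lib.NestedTrees

open Finset MeasureTheory intervalIntegral Classical Pool.Agent.Lib.FracTree

variable {U V : Type*} [Fintype U] [Fintype V]

/-- Mass of the growth process with terminal function `F`. -/
noncomputable def gmass (F : Finset V → (V → ℝ) → ℝ → ℝ) (r : V → V → ℝ) (l : List (U × U))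
    (ψ : U → V) (D : Finset U) (a : V → ℝ) (c : ℝ) : ℝ :=
  ∑ φ ∈ Ext ψ D, (l.map (fun s => r (φ s.2) (φ s.1))).prod *
    KK (F (Finset.univ.image φ)ᶜ) r (l.map (fun s => φ s.2)) a c

lemma continuous_gmass_step (F : Finset V → (V → ℝ) → ℝ → ℝ)
    (hF : ∀ X, Continuous (fun p : (V → ℝ) × ℝ => F X p.1 p.2))
    (r : V → V → ℝ) (l : List (U × U)) (ψ : U → V) (D : Finset U)
    (ρ a : V → ℝ) (c : ℝ) :
    Continuous (fun t : ℝ => gmass F r l ψ D (fun v => a v - t * ρ v) (c - t)) := by
  unfold gmass
  apply continuous_finsetSum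
  intro φ _
  exact continuous_const.mul (continuous_KK_step _ (hF _) r _ ρ a c)

lemma gmass_cons (F : Finset V → (V → ℝ) → ℝ → ℝ)
    (hF : ∀ X, Continuous (fun p : (V → ℝ) × ℝ => F X p.1 p.2))
    (r : V → V → ℝ) (w p : U) (l : List (U × U)) (ψ : U → V) (D : Finset U)
    (a : V → ℝ) (c : ℝ) (hw : w ∉ D) (hp : p ∈ D) :
    gmass F r ((w, p) :: l) ψ D a c = ∫ t in (0 : ℝ)..c, ∑ y ∈ (D.image ψ)ᶜ, r (ψ p) y *
      gmass F r l (Function.update ψ w y) (insert w D) (fun v => a v - t * r (ψ p) v) (c - t) := by
  have hmaps : ∀ φ ∈ Ext ψ D, φ w ∈ (D.image ψ)ᶜ := by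
    intro φ hφ
    rw [mem_Ext] at hφ
    rw [Finset.mem_compl, Finset.mem_image]
    rintro ⟨u, hu, h⟩
    rw [← hφ.2 u hu] at h
    exact hw (hφ.1 h ▸ hu)
  unfold gmass
  rw [← Finset.sum_fiberwise_of_maps_to hmaps, intervalIntegral.integral_finsetSum]
  · apply Finset.sum_congr rfl
    intro y _
    rw [Ext_fibre ψ D w hw y]
    simp_rw [Finset.mul_sum]
    rw [intervalIntegral.integral_finsetSum]
    · apply Finset.sum_congr rfl
      intro φ hφ
      rw [mem_Ext] at hφ
      have h1 : φ w = y := by
        rw [hφ.2 w (Finset.mem_insert_self _ _), Function.update_self]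
      have h2 : φ p = ψ p := by
        rw [hφ.2 p (Finset.mem_insert_of_mem hp), Function.update_of_ne (fun h : p = w => hw (h ▸ hp))]
      simp only [List.map_cons, List.prod_cons, KK, h1, h2]
      rw [intervalIntegral.integral_const_mul, intervalIntegral.integral_const_mul]
      ring
    · intro φ _
      apply Continuous.intervalIntegrable
      exact continuous_const.mul (continuous_const.mul (continuous_KK_step _ (hF _) r _ _ a c))
  · intro y _
    apply Continuous.intervalIntegrable
    apply Continuous.mul continuous_const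
    apply continuous_finsetSum
    intro φ _
    exact continuous_const.mul (continuous_KK_step _ (hF _) r _ _ a c)

/-- Abstract upper bound for the mass. -/
theorem gmass_le (F : Finset V → (V → ℝ) → ℝ → ℝ)
    (hF : ∀ X, Continuous (fun p : (V → ℝ) × ℝ => F X p.1 p.2))
    (B : ℕ → Finset V → (V → ℝ) → ℝ → ℝ)
    (hB : ∀ m X, Continuous (fun p : (V → ℝ) × ℝ => B m X p.1 p.2))
    (r : V → V → ℝ) (hr0 : ∀ x y, 0 ≤ r x y) (hr1 : ∀ x y, r x y ≤ 1)
    (hbase : ∀ X a c, 0 ≤ c → (∀ v, c ≤ a v) → F X a c ≤ B 0 X a c)
    (hstep : ∀ m X (ρ a : V → ℝ) c, 0 ≤ c → (∀ v, c ≤ a v) → (∀ v, 0 ≤ ρ v) → (∀ v, ρ v ≤ 1) →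
      ∫ t in (0 : ℝ)..c, ∑ y ∈ X, ρ y * B m (X.erase y) (fun v => a v - t * ρ v) (c - t)
        ≤ B (m + 1) X a c) :
    ∀ (l : List (U × U)) (D : Finset U) (ψ : U → V) (a : V → ℝ) (c : ℝ), Valid D l →
      Set.InjOn ψ D → 0 ≤ c → (∀ v, c ≤ a v) →
      gmass F r l ψ D a c ≤ B l.length (D.image ψ)ᶜ a c := by
  intro l
  induction l with
  | nil =>
    intro D ψ a c hV hinj hc ha
    have hD : D = Finset.univ := hV
    subst hD
    have hψ : Function.Injective ψ := by
      intro x y h
      exact hinj (by simp) (by simp) h
    have hE : Ext ψ Finset.univ = {ψ} := by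
      ext φ
      rw [mem_Ext, Finset.mem_singleton]
      constructor
      · rintro ⟨_, h⟩
        funext u
        exact h u (Finset.mem_univ u)
      · rintro rfl
        exact ⟨hψ, fun _ _ => rfl⟩
    unfold gmass
    rw [hE, Finset.sum_singleton]
    simp only [List.map_nil, List.prod_nil, KK, one_mul, List.length_nil]
    exact hbase _ a c hc ha
  | cons s l ih =>
    obtain ⟨w, p⟩ := s
    intro D ψ a c hV hinj hc ha0
    obtain ⟨hw, hp, hV'⟩ := hV
    simp only at hw hp hV'
    rw [gmass_cons F hF r w p l ψ D a c hw hp]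
    set X := (D.image ψ)ᶜ with hX
    set q := ψ p with hq
    -- the residual thresholds
    have hlow : ∀ t ∈ Set.Icc (0 : ℝ) c, ∀ v, (c - t) ≤ a v - t * r q v := by
      intro t ht v
      have h1 := ha0 v
      have h2 : t * r q v ≤ t * 1 := mul_le_mul_of_nonneg_left (hr1 q v) ht.1
      linarith
    have himg : ∀ y ∈ X, ((insert w D).image (Function.update ψ w y))ᶜ = X.erase y := by
      intro y _
      have : (insert w D).image (Function.update ψ w y) = insert y (D.image ψ) := by
        rw [Finset.image_insert, Function.update_self]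
        congr 1
        apply Finset.image_congr
        intro u hu
        have hu' : u ≠ w := fun h => hw (h ▸ hu)
        simp [Function.update_of_ne hu']
      rw [this, hX]
      ext v
      simp only [Finset.mem_compl, Finset.mem_insert, Finset.mem_erase]
      tauto
    have hinj' : ∀ y ∈ X, Set.InjOn (Function.update ψ w y) (insert w D : Finset U) := by
      intro y hy
      have hy' : ∀ u ∈ D, ψ u ≠ y := by
        intro u hu h
        rw [hX, Finset.mem_compl] at hy
        exact hy (h ▸ Finset.mem_image_of_mem ψ hu)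
      intro u hu v hv huv
      rw [Finset.mem_coe, Finset.mem_insert] at hu hv
      rcases hu with rfl | hu
      · rcases hv with rfl | hv
        · rfl
        · have hv' : v ≠ u := fun h => hw (h ▸ hv)
          rw [Function.update_self, Function.update_of_ne hv'] at huv
          exact absurd huv.symm (hy' v hv)
      · have hu' : u ≠ w := fun h => hw (h ▸ hu)
        rcases hv with rfl | hv
        · rw [Function.update_self, Function.update_of_ne hu'] at huv
          exact absurd huv (hy' u hu)
        · have hv' : v ≠ w := fun h => hw (h ▸ hv)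
          rw [Function.update_of_ne hu', Function.update_of_ne hv'] at huv
          exact hinj hu hv huv
    have hcont : Continuous (fun t : ℝ => ∑ y ∈ X, r q y *
        gmass F r l (Function.update ψ w y) (insert w D) (fun v => a v - t * r q v) (c - t)) := by
      apply continuous_finsetSum
      intro y _
      exact continuous_const.mul (continuous_gmass_step F hF r l _ _ (r q) a c)
    have hcontB : Continuous (fun t : ℝ => ∑ y ∈ X, r q y *
        B l.length (X.erase y) (fun v => a v - t * r q v) (c - t)) := by
      apply continuous_finsetSum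
      intro y _
      exact continuous_const.mul (continuous_step _ (hB _ _) (r q) a c)
    refine le_trans ?_ (hstep l.length X (r q) a c hc ha0 (hr0 q) (hr1 q))
    apply intervalIntegral.integral_mono_on hc
    · exact hcont.intervalIntegrable _ _
    · exact hcontB.intervalIntegrable _ _
    · intro t ht
      apply Finset.sum_le_sum
      intro y hy
      apply mul_le_mul_of_nonneg_left _ (hr0 q y)
      have := ih (insert w D) (Function.update ψ w y) (fun v => a v - t * r q v) (c - t) hV'
        (hinj' y hy) (by linarith [ht.2]) (hlow t ht)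
      rw [himg y hy] at this
      exact this

/-- The vertex-rooted process has total mass at most one. -/
theorem gmass_FP_le (r : V → V → ℝ) (hr0 : ∀ x y, 0 ≤ r x y) (hr1 : ∀ x y, r x y ≤ 1)
    (l : List (U × U)) (D : Finset U) (ψ : U → V) (hV : Valid D l) (hinj : Set.InjOn ψ D) :
    gmass FP r l ψ D (fun _ => 1) 1 ≤ 1 := by
  have h := gmass_le FP (fun X => continuous_FP X) (fun _ X a c => FP X a c)
    (fun _ X => continuous_FP X) r hr0 hr1 (fun X a c _ _ => le_refl _)
    (fun m X ρ a c hc ha hρ0 hρ1 => by
      have h1 := integral_QQ_le X a ρ c (fun x => by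
        have h1 := ha x
        have h2 : c * ρ x ≤ c * 1 := mul_le_mul_of_nonneg_left (hρ1 x) hc
        linarith)
      exact h1) l D ψ (fun _ => 1) 1 hV hinj zero_le_one (fun _ => le_refl _)
  simpa [FP] using h

end Pool.Agent.Lib.NestedTrees
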