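import Mathlib
import Pool.Agent.Lib.MP_d51747_co.Nested.Growth

set_option autoImplicit false
set_option linter.unusedSectionVars false

/-!
The number of vertices found before time `θ` is dominated by a sum of independent indicators
(Poisson binomial): this bounds the mass of the edge-rooted process.
-/

namespace Pool.Agent.Lib.NestedTrees

open Finset MeasureTheory intervalIntegral Pool.Agent.Lib.FracTree

variable {V : Type*} [DecidableEq V]

/-- Exactly `m` thresholds below `θ`. -/
noncomputable def DD (m : ℕ) (X : Finset V) (a : V → ℝ) (θ : ℝ) : ℝ :=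
  ∑ S ∈ X.powersetCard m, θ ^ m * ∏ x ∈ X \ S, (a x - θ)

/-- At least `m` thresholds below `θ`. -/
noncomputable def EP (m : ℕ) (X : Finset V) (a : V → ℝ) (θ : ℝ) : ℝ :=
  ∏ x ∈ X, a x - ∑ j ∈ Finset.range m, DD j X a θ

lemma continuous_DD (m : ℕ) (X : Finset V) :
    Continuous (fun p : (V → ℝ) × ℝ => DD m X p.1 p.2) := by
  unfold DD
  fun_prop

lemma continuous_EP (m : ℕ) (X : Finset V) :
    Continuous (fun p : (V → ℝ) × ℝ => EP m X p.1 p.2) := by
  unfold EP
  apply Continuous.sub
  · fun_prop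
  · apply continuous_finsetSum
    intro j _
    exact continuous_DD j X

lemma DD_nonneg (m : ℕ) (X : Finset V) (a : V → ℝ) (θ : ℝ) (h0 : 0 ≤ θ) (ha : ∀ v, θ ≤ a v) :
    0 ≤ DD m X a θ := by
  unfold DD
  apply Finset.sum_nonneg
  intro S _
  exact mul_nonneg (pow_nonneg h0 m) (Finset.prod_nonneg (fun x _ => sub_nonneg.mpr (ha x)))

lemma EP_succ (m : ℕ) (X : Finset V) (a : V → ℝ) (θ : ℝ) :
    EP m X a θ = EP (m + 1) X a θ + DD m X a θ := by
  unfold EP
  rw [Finset.sum_range_succ]
  ring

lemma EP_zero (X : Finset V) (a : V → ℝ) (θ : ℝ) : EP 0 X a θ = ∏ x ∈ X, a x := by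
  simp [EP]

/-- Reindexing pairs (set, element outside). -/
lemma sum_sdiff_eq (m : ℕ) (X : Finset V) (f : V → Finset V → ℝ) :
    ∑ S ∈ X.powersetCard m, ∑ y ∈ X \ S, f y S
      = ∑ y ∈ X, ∑ S ∈ (X.erase y).powersetCard m, f y S := by
  apply Finset.sum_comm'
  intro S y
  simp only [Finset.mem_powersetCard, Finset.mem_sdiff]
  constructor
  · rintro ⟨⟨h1, h2⟩, h3, h4⟩
    exact ⟨⟨fun x hx => Finset.mem_erase.mpr ⟨fun h => h4 (h ▸ hx), h1 hx⟩, h2⟩, h3⟩
  · rintro ⟨⟨h1, h2⟩, h3⟩
    exact ⟨⟨fun x hx => Finset.mem_of_mem_erase (h1 hx), h2⟩, h3,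
      fun h => (Finset.mem_erase.mp (h1 h)).1 rfl⟩

/-- Reindexing pairs (set, element inside). -/
lemma sum_mem_eq (m : ℕ) (X : Finset V) (f : V → Finset V → ℝ) :
    ∑ S ∈ X.powersetCard (m + 1), ∑ y ∈ S, f y S
      = ∑ y ∈ X, ∑ S ∈ (X.erase y).powersetCard m, f y (insert y S) := by
  have h1 : ∀ y ∈ X, ∑ S ∈ (X.erase y).powersetCard m, f y (insert y S)
      = ∑ S ∈ (X.powersetCard (m + 1)).filter (fun S => y ∈ S), f y S := by
    intro y hy
    refine Finset.sum_bij' (fun S _ => insert y S) (fun S _ => S.erase y) ?_ ?_ ?_ ?_ ?_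
    · intro S hS
      rw [Finset.mem_powersetCard] at hS
      rw [Finset.mem_filter, Finset.mem_powersetCard]
      have hyS : y ∉ S := fun h => (Finset.mem_erase.mp (hS.1 h)).1 rfl
      refine ⟨⟨?_, ?_⟩, Finset.mem_insert_self _ _⟩
      · intro x hx
        rw [Finset.mem_insert] at hx
        rcases hx with rfl | hx
        · exact hy
        · exact Finset.mem_of_mem_erase (hS.1 hx)
      · rw [Finset.card_insert_of_notMem hyS, hS.2]
    · intro S hS
      rw [Finset.mem_filter, Finset.mem_powersetCard] at hS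
      rw [Finset.mem_powersetCard]
      refine ⟨Finset.erase_subset_erase _ hS.1.1, ?_⟩
      rw [Finset.card_erase_of_mem hS.2, hS.1.2]
      rfl
    · intro S hS
      rw [Finset.mem_powersetCard] at hS
      have hyS : y ∉ S := fun h => (Finset.mem_erase.mp (hS.1 h)).1 rfl
      exact Finset.erase_insert hyS
    · intro S hS
      rw [Finset.mem_filter] at hS
      exact Finset.insert_erase hS.2
    · intro S _
      rfl
  rw [Finset.sum_congr rfl h1]
  simp_rw [Finset.sum_filter]
  rw [Finset.sum_comm]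
  apply Finset.sum_congr rfl
  intro S hS
  rw [Finset.mem_powersetCard] at hS
  rw [← Finset.sum_filter]
  apply Finset.sum_congr _ (fun _ _ => rfl)
  ext y
  simp only [Finset.mem_filter]
  exact ⟨fun h => ⟨hS.1 h, h⟩, fun h => h.2⟩

lemma hasDerivAt_prod_sub (Y : Finset V) (a : V → ℝ) (θ : ℝ) :
    HasDerivAt (fun θ => ∏ x ∈ Y, (a x - θ)) (-∑ y ∈ Y, ∏ x ∈ Y.erase y, (a x - θ)) θ := by
  have h := hasDerivAt_PP Y a (fun _ => 1) θ
  have h1 : PP Y a (fun _ => 1) = fun θ => ∏ x ∈ Y, (a x - θ) := by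
    funext t
    simp [PP]
  rw [h1] at h
  refine h.congr_deriv ?_
  simp [QQ]

lemma erase_sdiff_eq (X S : Finset V) (y : V) : (X.erase y) \ S = (X \ S).erase y := by
  ext x
  simp only [Finset.mem_sdiff, Finset.mem_erase]
  tauto

lemma sdiff_insert_eq (X S : Finset V) (y : V) : X \ (insert y S) = (X.erase y) \ S := by
  ext x
  simp only [Finset.mem_sdiff, Finset.mem_erase, Finset.mem_insert]
  tauto

/-- `θ`-derivative of `DD`, case `m = 0`. -/
lemma hasDerivAt_DD_zero (X : Finset V) (a : V → ℝ) (θ : ℝ) :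
    HasDerivAt (fun θ => DD 0 X a θ) (-∑ y ∈ X, DD 0 (X.erase y) a θ) θ := by
  simp only [DD, Finset.powersetCard_zero, Finset.sum_singleton, pow_zero, one_mul,
    Finset.sdiff_empty]
  exact hasDerivAt_prod_sub X a θ

/-- `θ`-derivative of `DD`. -/
lemma hasDerivAt_DD_succ (m : ℕ) (X : Finset V) (a : V → ℝ) (θ : ℝ) :
    HasDerivAt (fun θ => DD (m + 1) X a θ)
      (∑ y ∈ X, DD m (X.erase y) a θ - ∑ y ∈ X, DD (m + 1) (X.erase y) a θ) θ := by
  have h : ∀ S ∈ X.powersetCard (m + 1), HasDerivAt
      (fun θ : ℝ => θ ^ (m + 1) * ∏ x ∈ X \ S, (a x - θ))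
      (∑ y ∈ S, θ ^ m * ∏ x ∈ X \ S, (a x - θ)
        - ∑ y ∈ X \ S, θ ^ (m + 1) * ∏ x ∈ (X \ S).erase y, (a x - θ)) θ := by
    intro S hS
    rw [Finset.mem_powersetCard] at hS
    have h1 : HasDerivAt (fun θ : ℝ => θ ^ (m + 1)) (((m + 1 : ℕ) : ℝ) * θ ^ m) θ := by
      simpa using hasDerivAt_pow (m + 1) θ
    refine (h1.mul (hasDerivAt_prod_sub (X \ S) a θ)).congr_deriv ?_
    rw [Finset.sum_const, hS.2, nsmul_eq_mul, ← Finset.mul_sum]
    ring
  have h2 := HasDerivAt.fun_sum h
  have h3 : (fun θ : ℝ => DD (m + 1) X a θ)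
      = fun θ => ∑ S ∈ X.powersetCard (m + 1), θ ^ (m + 1) * ∏ x ∈ X \ S, (a x - θ) := rfl
  rw [h3]
  refine h2.congr_deriv ?_
  rw [Finset.sum_sub_distrib]
  congr 1
  · rw [sum_mem_eq m X (fun y S => θ ^ m * ∏ x ∈ X \ S, (a x - θ))]
    apply Finset.sum_congr rfl
    intro y _
    unfold DD
    apply Finset.sum_congr rfl
    intro S _
    rw [sdiff_insert_eq]
  · rw [sum_sdiff_eq (m + 1) X (fun y S => θ ^ (m + 1) * ∏ x ∈ (X \ S).erase y, (a x - θ))]
    apply Finset.sum_congr rfl
    intro y _
    unfold DD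
    apply Finset.sum_congr rfl
    intro S _
    rw [erase_sdiff_eq]

/-- `θ`-derivative of `EP`. -/
lemma hasDerivAt_EP (m : ℕ) (X : Finset V) (a : V → ℝ) (θ : ℝ) :
    HasDerivAt (fun θ => EP (m + 1) X a θ) (∑ y ∈ X, DD m (X.erase y) a θ) θ := by
  induction m with
  | zero =>
    have h : (fun θ => EP (0 + 1) X a θ) = fun θ => ∏ x ∈ X, a x - DD 0 X a θ := by
      funext t
      simp [EP]
    rw [h]
    have := (hasDerivAt_DD_zero X a θ).const_sub (∏ x ∈ X, a x)
    simpa using this
  | succ m ih =>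
    have h : (fun θ => EP (m + 1 + 1) X a θ) = fun θ => EP (m + 1) X a θ - DD (m + 1) X a θ := by
      funext t
      rw [EP_succ (m + 1) X a t]
      ring
    rw [h]
    refine (ih.sub (hasDerivAt_DD_succ m X a θ)).congr_deriv ?_
    ring

lemma EP_at_zero (m : ℕ) (X : Finset V) (a : V → ℝ) : EP (m + 1) X a 0 = 0 := by
  unfold EP
  rw [Finset.sum_range_succ']
  have h1 : ∀ j ∈ Finset.range m, DD (j + 1) X a 0 = 0 := by
    intro j _
    unfold DD
    simp
  rw [Finset.sum_eq_zero h1]
  simp [DD]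

/-- Derivative of `DD` along the growth flow. -/
lemma hasDerivAt_DD_flow (m : ℕ) (X : Finset V) (ρ a : V → ℝ) (θ t : ℝ) :
    HasDerivAt (fun t => DD m X (fun v => a v - t * ρ v) θ)
      (-∑ y ∈ X, ρ y * DD m (X.erase y) (fun v => a v - t * ρ v) θ) t := by
  have h : ∀ S ∈ X.powersetCard m, HasDerivAt
      (fun t : ℝ => θ ^ m * ∏ x ∈ X \ S, ((a x - t * ρ x) - θ))
      (-∑ y ∈ X \ S, ρ y * (θ ^ m * ∏ x ∈ (X \ S).erase y, ((a x - t * ρ x) - θ))) t := by
    intro S _
    have h1 := hasDerivAt_PP (X \ S) (fun x => a x - θ) ρ t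
    have h2 : PP (X \ S) (fun x => a x - θ) ρ = fun t => ∏ x ∈ X \ S, ((a x - t * ρ x) - θ) := by
      funext t
      unfold PP
      apply Finset.prod_congr rfl
      intro x _
      ring
    rw [h2] at h1
    refine (h1.const_mul (θ ^ m)).congr_deriv ?_
    unfold QQ
    rw [mul_neg, Finset.mul_sum]
    congr 1
    apply Finset.sum_congr rfl
    intro y _
    rw [mul_left_comm]
    congr 2
    apply Finset.prod_congr rfl
    intro x _
    ring
  have h2 := HasDerivAt.fun_sum h
  have h3 : (fun t : ℝ => DD m X (fun v => a v - t * ρ v) θ)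
      = fun t => ∑ S ∈ X.powersetCard m, θ ^ m * ∏ x ∈ X \ S, ((a x - t * ρ x) - θ) := rfl
  rw [h3]
  refine h2.congr_deriv ?_
  rw [Finset.sum_neg_distrib]
  congr 1
  rw [sum_sdiff_eq m X (fun y S => ρ y * (θ ^ m * ∏ x ∈ (X \ S).erase y, ((a x - t * ρ x) - θ)))]
  apply Finset.sum_congr rfl
  intro y _
  unfold DD
  rw [Finset.mul_sum]
  apply Finset.sum_congr rfl
  intro S _
  rw [erase_sdiff_eq]

/-- Derivative of `EP` along the growth flow. -/
lemma hasDerivAt_EP_flow (m : ℕ) (X : Finset V) (ρ a : V → ℝ) (θ t : ℝ) :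
    HasDerivAt (fun t => EP m X (fun v => a v - t * ρ v) θ)
      (-∑ y ∈ X, ρ y * EP m (X.erase y) (fun v => a v - t * ρ v) θ) t := by
  induction m with
  | zero =>
    simp only [EP_zero]
    have h := hasDerivAt_PP X a ρ t
    exact h
  | succ m ih =>
    have h : (fun t => EP (m + 1) X (fun v => a v - t * ρ v) θ)
        = fun t => EP m X (fun v => a v - t * ρ v) θ - DD m X (fun v => a v - t * ρ v) θ := by
      funext s
      rw [EP_succ m X _ θ]
      ring
    rw [h]
    refine (ih.sub (hasDerivAt_DD_flow m X ρ a θ t)).congr_deriv ?_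
    rw [sub_neg_eq_add, neg_add_eq_sub, ← Finset.sum_sub_distrib, ← Finset.sum_neg_distrib]
    apply Finset.sum_congr rfl
    intro y _
    rw [EP_succ m (X.erase y) _ θ]
    ring

/-- The bound for the mass of the edge-rooted process. -/
noncomputable def GB (m : ℕ) (X : Finset V) (a : V → ℝ) (c : ℝ) : ℝ :=
  ∫ θ in (0 : ℝ)..c, EP m X a θ

lemma continuous_GB (m : ℕ) (X : Finset V) :
    Continuous (fun p : (V → ℝ) × ℝ => GB m X p.1 p.2) := by
  unfold GB
  apply intervalIntegral.continuous_parametric_intervalIntegral_of_continuous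
    (f := fun (p : (V → ℝ) × ℝ) (θ : ℝ) => EP m X p.1 θ)
  · have : (Function.uncurry fun (p : (V → ℝ) × ℝ) (θ : ℝ) => EP m X p.1 θ)
        = (fun p : (V → ℝ) × ℝ => EP m X p.1 p.2) ∘
          (fun x : ((V → ℝ) × ℝ) × ℝ => (x.1.1, x.2)) := by
      funext x
      rfl
    rw [this]
    exact (continuous_EP m X).comp (by fun_prop)
  · fun_prop

lemma GB_zero (X : Finset V) (a : V → ℝ) (c : ℝ) : GB 0 X a c = FM X a c := by
  unfold GB FM
  simp [EP_zero]

lemma continuous_EP_two (m : ℕ) (X : Finset V) (ρ a : V → ℝ) :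
    Continuous (Function.uncurry fun t θ : ℝ => EP m X (fun v => a v - t * ρ v) θ) := by
  have : (Function.uncurry fun t θ : ℝ => EP m X (fun v => a v - t * ρ v) θ)
      = (fun p : (V → ℝ) × ℝ => EP m X p.1 p.2) ∘
        (fun x : ℝ × ℝ => ((fun v => a v - x.1 * ρ v), x.2)) := by
    funext x
    rfl
  rw [this]
  exact (continuous_EP m X).comp (by fun_prop)

lemma continuous_DD_two (m : ℕ) (X : Finset V) (ρ a : V → ℝ) :
    Continuous (Function.uncurry fun t θ : ℝ => DD m X (fun v => a v - t * ρ v) θ) := by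
  have : (Function.uncurry fun t θ : ℝ => DD m X (fun v => a v - t * ρ v) θ)
      = (fun p : (V → ℝ) × ℝ => DD m X p.1 p.2) ∘
        (fun x : ℝ × ℝ => ((fun v => a v - x.1 * ρ v), x.2)) := by
    funext x
    rfl
  rw [this]
  exact (continuous_DD m X).comp (by fun_prop)

/-- The step inequality. -/
theorem GB_step (m : ℕ) (X : Finset V) (ρ a : V → ℝ) (c : ℝ) (hc : 0 ≤ c)
    (ha : ∀ v, c ≤ a v) (hρ1 : ∀ v, ρ v ≤ 1) :
    ∫ t in (0 : ℝ)..c, ∑ y ∈ X, ρ y * GB m (X.erase y) (fun v => a v - t * ρ v) (c - t)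
      ≤ GB (m + 1) X a c := by
  -- the two parts of the left side
  set A : ℝ → ℝ → ℝ := fun t θ => ∑ y ∈ X, ρ y * EP (m + 1) (X.erase y) (fun v => a v - t * ρ v) θ
    with hA
  set B : ℝ → ℝ → ℝ := fun t θ => ∑ y ∈ X, ρ y * DD m (X.erase y) (fun v => a v - t * ρ v) θ
    with hB
  have hAc : Continuous (Function.uncurry A) := by
    have : Function.uncurry A = fun x : ℝ × ℝ => ∑ y ∈ X, ρ y *
        (Function.uncurry fun t θ : ℝ => EP (m + 1) (X.erase y) (fun v => a v - t * ρ v) θ) x := by
      funext x; rfl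
    rw [this]
    apply continuous_finsetSum
    intro y _
    exact continuous_const.mul (continuous_EP_two (m + 1) (X.erase y) ρ a)
  have hBc : Continuous (Function.uncurry B) := by
    have : Function.uncurry B = fun x : ℝ × ℝ => ∑ y ∈ X, ρ y *
        (Function.uncurry fun t θ : ℝ => DD m (X.erase y) (fun v => a v - t * ρ v) θ) x := by
      funext x; rfl
    rw [this]
    apply continuous_finsetSum
    intro y _
    exact continuous_const.mul (continuous_DD_two m (X.erase y) ρ a)
  have hAt : ∀ t, Continuous (A t) := fun t => hAc.comp (by fun_prop : Continuous fun θ : ℝ => (t, θ))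
  have hBt : ∀ t, Continuous (B t) := fun t => hBc.comp (by fun_prop : Continuous fun θ : ℝ => (t, θ))
  have hAs : ∀ θ, Continuous (fun t => A t θ) :=
    fun θ => hAc.comp (by fun_prop : Continuous fun t : ℝ => (t, θ))
  have h1 : ∀ t, ∑ y ∈ X, ρ y * GB m (X.erase y) (fun v => a v - t * ρ v) (c - t)
      = (∫ θ in (0 : ℝ)..(c - t), A t θ) + ∫ θ in (0 : ℝ)..(c - t), B t θ := by
    intro t
    rw [← intervalIntegral.integral_add ((hAt t).intervalIntegrable _ _)
      ((hBt t).intervalIntegrable _ _)]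
    unfold GB
    have h2 : ∀ y ∈ X, ρ y * ∫ θ in (0 : ℝ)..(c - t), EP m (X.erase y) (fun v => a v - t * ρ v) θ
        = ∫ θ in (0 : ℝ)..(c - t), ρ y * EP m (X.erase y) (fun v => a v - t * ρ v) θ := by
      intro y _
      rw [intervalIntegral.integral_const_mul]
    rw [Finset.sum_congr rfl h2, ← intervalIntegral.integral_finsetSum]
    · apply intervalIntegral.integral_congr
      intro θ _
      simp only [hA, hB]
      rw [← Finset.sum_add_distrib]
      apply Finset.sum_congr rfl
      intro y _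
      rw [EP_succ m (X.erase y) _ θ]
      ring
    · intro y _
      apply Continuous.intervalIntegrable
      exact continuous_const.mul ((continuous_EP_two m (X.erase y) ρ a).comp
        (by fun_prop : Continuous fun θ : ℝ => (t, θ)))
  -- continuity of the inner integrals
  have hcA : Continuous (fun t : ℝ => ∫ θ in (0 : ℝ)..(c - t), A t θ) :=
    intervalIntegral.continuous_parametric_intervalIntegral_of_continuous (f := A) hAc (by fun_prop)
  have hcB : Continuous (fun t : ℝ => ∫ θ in (0 : ℝ)..(c - t), B t θ) :=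
    intervalIntegral.continuous_parametric_intervalIntegral_of_continuous (f := B) hBc (by fun_prop)
  have hcE : Continuous (fun t : ℝ => EP (m + 1) X (fun v => a v - t * ρ v) (c - t)) :=
    continuous_step (EP (m + 1) X) (continuous_EP (m + 1) X) ρ a c
  rw [intervalIntegral.integral_congr (g := fun t => (∫ θ in (0 : ℝ)..(c - t), A t θ)
    + ∫ θ in (0 : ℝ)..(c - t), B t θ) (fun t _ => h1 t)]
  rw [intervalIntegral.integral_add (hcA.intervalIntegrable _ _) (hcB.intervalIntegrable _ _)]
  -- first part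
  have hfirst : ∫ t in (0 : ℝ)..c, ∫ θ in (0 : ℝ)..(c - t), A t θ
      = GB (m + 1) X a c - ∫ t in (0 : ℝ)..c, EP (m + 1) X (fun v => a v - t * ρ v) (c - t) := by
    rw [tri_swap A hAc c hc]
    have h3 : ∀ θ, ∫ t in (0 : ℝ)..(c - θ), A t θ
        = EP (m + 1) X a θ - EP (m + 1) X (fun v => a v - (c - θ) * ρ v) θ := by
      intro θ
      have h4 : ∀ t ∈ Set.uIcc 0 (c - θ), HasDerivAt
          (fun t => -EP (m + 1) X (fun v => a v - t * ρ v) θ) (A t θ) t := by
        intro t _
        have := (hasDerivAt_EP_flow (m + 1) X ρ a θ t).neg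
        refine this.congr_deriv ?_
        rw [neg_neg]
      rw [intervalIntegral.integral_eq_sub_of_hasDerivAt h4 ((hAs θ).intervalIntegrable _ _)]
      simp only [zero_mul, sub_zero]
      ring
    rw [intervalIntegral.integral_congr (fun θ _ => h3 θ), intervalIntegral.integral_sub]
    · congr 1
      have h5 := intervalIntegral.integral_comp_sub_left (a := (0 : ℝ)) (b := c)
        (fun t => EP (m + 1) X (fun v => a v - t * ρ v) (c - t)) c
      simp only [sub_self, sub_zero] at h5
      rw [← h5]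
      apply intervalIntegral.integral_congr
      intro θ _
      simp only
      congr 1
      ring
    · apply Continuous.intervalIntegrable
      exact (continuous_EP (m + 1) X).comp (by fun_prop : Continuous fun θ : ℝ => (a, θ))
    · apply Continuous.intervalIntegrable
      exact (continuous_EP (m + 1) X).comp
        (by fun_prop : Continuous fun θ : ℝ => ((fun v => a v - (c - θ) * ρ v : V → ℝ), θ))
  -- second part
  have hsecond : ∫ t in (0 : ℝ)..c, ∫ θ in (0 : ℝ)..(c - t), B t θ
      ≤ ∫ t in (0 : ℝ)..c, EP (m + 1) X (fun v => a v - t * ρ v) (c - t) := by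
    apply intervalIntegral.integral_mono_on hc (hcB.intervalIntegrable _ _)
      (hcE.intervalIntegrable _ _)
    intro t ht
    have hct : 0 ≤ c - t := by linarith [ht.2]
    have h6 : EP (m + 1) X (fun v => a v - t * ρ v) (c - t)
        = ∫ θ in (0 : ℝ)..(c - t), ∑ y ∈ X, DD m (X.erase y) (fun v => a v - t * ρ v) θ := by
      rw [intervalIntegral.integral_eq_sub_of_hasDerivAt
        (f := fun θ => EP (m + 1) X (fun v => a v - t * ρ v) θ)
        (fun θ _ => hasDerivAt_EP m X _ θ)]
      · rw [EP_at_zero]; ring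
      · apply Continuous.intervalIntegrable
        apply continuous_finsetSum
        intro y _
        exact (continuous_DD_two m (X.erase y) ρ a).comp
          (by fun_prop : Continuous fun θ : ℝ => (t, θ))
    rw [h6]
    apply intervalIntegral.integral_mono_on hct ((hBt t).intervalIntegrable _ _)
    · apply Continuous.intervalIntegrable
      apply continuous_finsetSum
      intro y _
      exact (continuous_DD_two m (X.erase y) ρ a).comp
        (by fun_prop : Continuous fun θ : ℝ => (t, θ))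
    · intro θ hθ
      simp only [hB]
      apply Finset.sum_le_sum
      intro y _
      have hD : 0 ≤ DD m (X.erase y) (fun v => a v - t * ρ v) θ := by
        apply DD_nonneg _ _ _ _ hθ.1
        intro v
        have h7 := ha v
        have h8 : t * ρ v ≤ t * 1 := mul_le_mul_of_nonneg_left (hρ1 v) ht.1
        linarith [hθ.2]
      calc ρ y * DD m (X.erase y) (fun v => a v - t * ρ v) θ
          ≤ 1 * DD m (X.erase y) (fun v => a v - t * ρ v) θ :=
            mul_le_mul_of_nonneg_right (hρ1 y) hD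
        _ = _ := one_mul _
  linarith

/-- Evaluation of `DD` at constant thresholds. -/
lemma DD_one (m : ℕ) (X : Finset V) (θ : ℝ) :
    DD m X (fun _ => 1) θ = (X.card.choose m : ℝ) * (θ ^ m * (1 - θ) ^ (X.card - m)) := by
  unfold DD
  rw [Finset.sum_congr rfl (g := fun _ => θ ^ m * (1 - θ) ^ (X.card - m))]
  · rw [Finset.sum_const, Finset.card_powersetCard, nsmul_eq_mul]
  · intro S hS
    rw [Finset.mem_powersetCard] at hS
    rw [Finset.prod_const, Finset.card_sdiff_of_subset hS.1, hS.2]

lemma integral_DD_one (m : ℕ) (X : Finset V) (w : V) (hw : w ∉ X) (hm : m ≤ X.card) :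
    ∫ θ in (0 : ℝ)..1, DD m X (fun _ => 1) θ = 1 / (X.card + 1) := by
  have h1 : ∫ θ in (0 : ℝ)..1, ∑ y ∈ insert w X, DD m ((insert w X).erase y) (fun _ => 1) θ
      = 1 := by
    rw [intervalIntegral.integral_eq_sub_of_hasDerivAt
        (f := fun θ => EP (m + 1) (insert w X) (fun _ => 1) θ)
        (fun θ _ => hasDerivAt_EP m (insert w X) _ θ)]
    · rw [EP_at_zero, sub_zero]
      unfold EP
      rw [Finset.sum_eq_zero]
      · simp
      · intro j hj
        rw [Finset.mem_range] at hj
        rw [DD_one]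
        have : (insert w X).card - j ≠ 0 := by
          rw [Finset.card_insert_of_notMem hw]
          omega
        simp [this]
    · apply Continuous.intervalIntegrable
      apply continuous_finsetSum
      intro y _
      exact (continuous_DD m ((insert w X).erase y)).comp
        (by fun_prop : Continuous fun θ : ℝ => ((fun _ => 1 : V → ℝ), θ))
  have h2 : ∀ θ : ℝ, ∑ y ∈ insert w X, DD m ((insert w X).erase y) (fun _ => 1) θ
      = ((X.card : ℝ) + 1) * DD m X (fun _ => 1) θ := by
    intro θ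
    rw [Finset.sum_congr rfl (g := fun _ => DD m X (fun _ => 1) θ)]
    · rw [Finset.sum_const, Finset.card_insert_of_notMem hw, nsmul_eq_mul]
      push_cast
      ring
    · intro y hy
      rw [DD_one, DD_one, Finset.card_erase_of_mem hy, Finset.card_insert_of_notMem hw]
      simp
  rw [intervalIntegral.integral_congr (fun θ _ => h2 θ), intervalIntegral.integral_const_mul] at h1
  have h3 : (0 : ℝ) < (X.card : ℝ) + 1 := by positivity
  field_simp
  linarith

lemma GB_one (m : ℕ) (X : Finset V) (w : V) (hw : w ∉ X) (hm : m ≤ X.card + 1) :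
    GB m X (fun _ => 1) 1 = ((X.card : ℝ) + 1 - m) / (X.card + 1) := by
  have h3 : (0 : ℝ) < (X.card : ℝ) + 1 := by positivity
  induction m with
  | zero =>
    rw [GB_zero]
    unfold FM
    rw [Finset.prod_const_one, Nat.cast_zero, sub_zero, div_self h3.ne', one_mul]
  | succ m ih =>
    have ih' := ih (by omega)
    have h1 : GB m X (fun _ => 1) 1 = GB (m + 1) X (fun _ => 1) 1
        + ∫ θ in (0 : ℝ)..1, DD m X (fun _ => 1) θ := by
      unfold GB
      rw [← intervalIntegral.integral_add]
      · apply intervalIntegral.integral_congr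
        intro θ _
        exact EP_succ m X _ θ
      · apply Continuous.intervalIntegrable
        exact (continuous_EP (m + 1) X).comp
          (by fun_prop : Continuous fun θ : ℝ => ((fun _ => 1 : V → ℝ), θ))
      · apply Continuous.intervalIntegrable
        exact (continuous_DD m X).comp
          (by fun_prop : Continuous fun θ : ℝ => ((fun _ => 1 : V → ℝ), θ))
    rw [integral_DD_one m X w hw (by omega), ih'] at h1
    have h4 : GB (m + 1) X (fun _ => 1) 1
        = ((X.card : ℝ) + 1 - m) / (X.card + 1) - 1 / (X.card + 1) := by linarith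
    rw [h4, ← sub_div, Nat.cast_succ]
    congr 1
    ring

end Pool.Agent.Lib.NestedTrees
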