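import Mathlib
import Pool.Agent.Lib.MP_d51747_co.Nested.Binom

set_option autoImplicit false
set_option linter.unusedSectionVars false

/-!
The growth measure `muW` and the loss measure `nuW` on injective maps of a tree.
-/

namespace Pool.Agent.Lib.NestedTrees

open Finset MeasureTheory intervalIntegral Classical Pool.Agent.Lib.FracTree

variable {U V : Type*} [Fintype U] [Fintype V]

/-- Growth measure. -/
noncomputable def muW (T : SimpleGraph U) (ρ : Sym2 V → ℝ) (φ : U → V) : ℝ :=
  (∏ e ∈ T.edgeFinset, ρ (e.map φ)) *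
    KK (FM (Finset.univ.image φ)ᶜ) (fun x y => ρ s(x, y)) ((canon T).map φ) (fun _ => 1) 1

/-- Loss measure at the vertex `y`. -/
noncomputable def nuW (T : SimpleGraph U) (ρ : Sym2 V → ℝ) (y : U) (φ : U → V) : ℝ :=
  (∏ e ∈ T.edgeFinset, ρ (e.map φ)) *
    KK (FP (Finset.univ.image φ)ᶜ) (fun x y => ρ s(x, y)) ((canon T).map φ ++ [φ y])
      (fun _ => 1) 1

lemma muW_nonneg (T : SimpleGraph U) (ρ : Sym2 V → ℝ) (h0 : ∀ e, 0 ≤ ρ e) (h1 : ∀ e, ρ e ≤ 1)
    (φ : U → V) : 0 ≤ muW T ρ φ := by
  unfold muW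
  apply mul_nonneg (Finset.prod_nonneg (fun e _ => h0 _))
  exact KK_nonneg _ (fun a c => FM_nonneg _ a c) _ (fun x y => h1 _) _ _ _ zero_le_one
    (fun _ => le_refl _)

lemma nuW_nonneg (T : SimpleGraph U) (ρ : Sym2 V → ℝ) (h0 : ∀ e, 0 ≤ ρ e) (h1 : ∀ e, ρ e ≤ 1)
    (y : U) (φ : U → V) : 0 ≤ nuW T ρ y φ := by
  unfold nuW
  apply mul_nonneg (Finset.prod_nonneg (fun e _ => h0 _))
  exact KK_nonneg _ (fun a c => FP_nonneg _ a c) _ (fun x y => h1 _) _ _ _ zero_le_one
    (fun _ => le_refl _)

/-- Growing a tree from a root vertex. -/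
theorem vertex_growth (T : SimpleGraph U) (hT : T.IsTree) (y : U) (hc : 2 ≤ Fintype.card U) :
    ∃ l : List (U × U), Valid {y} l ∧
      (∀ f : Sym2 U → ℝ, ∏ e ∈ T.edgeFinset, f e = (l.map (fun s => f (stepEdge s))).prod) ∧
      (l.map Prod.snd).Perm (canon T ++ [y]) := by
  obtain ⟨l, hl1, hl2⟩ := grow T hT.connected _ {y} ⟨y, by simp⟩ rfl
  have hcard := Valid.card l _ hl1
  rw [Finset.card_singleton] at hcard
  set EL : List (Sym2 U) := l.map stepEdge with hEL
  have hnd : EL.Nodup := Valid.edges_nodup l _ hl1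
  have hsub : EL.toFinset ⊆ T.edgeFinset := by
    intro e he
    rw [List.mem_toFinset, hEL, List.mem_map] at he
    rw [SimpleGraph.mem_edgeFinset]
    obtain ⟨t, ht, rfl⟩ := he
    exact hl2 t ht
  have hELcard : EL.toFinset.card = T.edgeFinset.card := by
    rw [List.toFinset_card_of_nodup hnd, hEL, List.length_map]
    have := hT.card_edgeFinset
    omega
  have hEq : EL.toFinset = T.edgeFinset := Finset.eq_of_subset_of_card_le hsub (by omega)
  refine ⟨l, hl1, ?_, ?_⟩
  · intro f
    rw [← hEq, List.prod_toFinset f hnd, hEL, List.map_map]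
    rfl
  rw [List.perm_iff_count]
  intro u
  rw [List.count_append, count_canon]
  have hsum : T.degree u = (l.map (fun s => if u ∈ stepEdge s then 1 else 0)).sum := by
    have h2 : T.degree u = ∑ e ∈ T.edgeFinset, (if u ∈ e then 1 else 0) := by
      rw [← T.card_incidenceFinset_eq_degree u, T.incidenceFinset_eq_filter u,
        Finset.card_filter]
    rw [h2, ← hEq, List.sum_toFinset _ hnd, hEL, List.map_map]
    rfl
  have hcountl : ∀ l' : List (U × U), (∀ s ∈ l', T.Adj s.2 s.1) →
      (l'.map (fun s => if u ∈ stepEdge s then 1 else 0)).sum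
        = (l'.map Prod.snd).count u + (l'.map Prod.fst).count u := by
    intro l' hl'
    induction l' with
    | nil => simp
    | cons s l' ih =>
      rw [List.map_cons, List.sum_cons, ih (fun t ht => hl' t (List.mem_cons_of_mem _ ht)),
        List.map_cons, List.map_cons, List.count_cons, List.count_cons]
      have hs := (hl' s List.mem_cons_self).ne
      by_cases h1 : s.2 = u
      · have h2 : ¬ s.1 = u := fun h => hs (h1.trans h.symm)
        simp [stepEdge, h1, h2]
        omega
      · by_cases h2 : s.1 = u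
        · simp [stepEdge, h1, h2]
          omega
        · have h1' : ¬ u = s.2 := fun h => h1 h.symm
          have h2' : ¬ u = s.1 := fun h => h2 h.symm
          simp [stepEdge, h1, h2, h1', h2']
  rw [hcountl l hl2, Valid.count_fst l _ hl1 u] at hsum
  have hdeg : 1 ≤ T.degree u := by
    have : Nontrivial U := Fintype.one_lt_card_iff_nontrivial.mp (by omega)
    exact hT.connected.preconnected.degree_pos_of_nontrivial u
  by_cases hu : u = y
  · subst hu
    simp only [Finset.mem_singleton, if_true] at hsum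
    simp
    omega
  · have hu' : ¬ (y = u) := fun h => hu h.symm
    have hmem : u ∉ ({y} : Finset U) := by simpa using hu
    rw [if_neg hmem] at hsum
    simp [hu']
    omega

/-- Loss mass with a prescribed position of the parent. -/
theorem nuW_sum_le (T : SimpleGraph U) (hT : T.IsTree) (hc : 2 ≤ Fintype.card U)
    (ρ : Sym2 V → ℝ) (h0 : ∀ e, 0 ≤ ρ e) (h1 : ∀ e, ρ e ≤ 1) (y : U) (v : V) :
    ∑ φ : U → V with Function.Injective φ ∧ φ y = v, nuW T ρ y φ ≤ 1 := by
  obtain ⟨l, hl1, hl2, hl3⟩ := vertex_growth T hT y hc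
  have hset : (Finset.univ : Finset (U → V)).filter (fun φ => Function.Injective φ ∧ φ y = v)
      = Ext (fun _ => v) {y} := by
    ext φ
    simp [mem_Ext]
  rw [hset]
  have h2 : ∑ φ ∈ Ext (fun _ => v) {y}, nuW T ρ y φ
      = gmass FP (fun x y => ρ s(x, y)) l (fun _ => v) {y} (fun _ => 1) 1 := by
    unfold gmass
    apply Finset.sum_congr rfl
    intro φ _
    unfold nuW
    rw [hl2 (fun e => ρ (e.map φ))]
    congr 1
    apply KK_perm _ (continuous_FP _) _ _ _ _ zero_le_one
    have := (hl3.map φ).symm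
    rw [List.map_map, List.map_append] at this
    exact this
  rw [h2]
  exact gmass_FP_le _ (fun x y => h0 _) (fun x y => h1 _) l {y} _ hl1 (by simp)

theorem nuW_total_le (T : SimpleGraph U) (hT : T.IsTree) (hc : 2 ≤ Fintype.card U)
    (ρ : Sym2 V → ℝ) (h0 : ∀ e, 0 ≤ ρ e) (h1 : ∀ e, ρ e ≤ 1) (y : U) :
    ∑ φ : U → V with Function.Injective φ, nuW T ρ y φ ≤ Fintype.card V := by
  rw [← Finset.sum_fiberwise_of_maps_to (s := Finset.univ.filter
    (fun φ : U → V => Function.Injective φ)) (t := (Finset.univ : Finset V))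
    (g := fun φ => φ y) (fun _ _ => Finset.mem_univ _)]
  calc _ ≤ ∑ v : V, (1 : ℝ) := by
        apply Finset.sum_le_sum
        intro v _
        rw [Finset.filter_filter]
        exact nuW_sum_le T hT hc ρ h0 h1 y v
    _ = Fintype.card V := by simp

/-- Mass of the copies with a prescribed position of an edge. -/
theorem muW_edge_le (T : SimpleGraph U) (hT : T.IsTree)
    (ρ : Sym2 V → ℝ) (h0 : ∀ e, 0 ≤ ρ e) (h1 : ∀ e, ρ e ≤ 1) (a b : U) (hab : T.Adj a b)
    (v w : V) (hvw : v ≠ w) (hUV : Fintype.card U ≤ Fintype.card V) :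
    ∑ φ : U → V with Function.Injective φ ∧ (φ a = v ∧ φ b = w), muW T ρ φ
      ≤ ρ s(v, w) * (((Fintype.card V : ℝ) + 1 - Fintype.card U) / (Fintype.card V - 1)) := by
  obtain ⟨l, hl1, hl2, hl3, hl4⟩ := exists_growth T hT a b hab
  have hne : b ≠ a := hab.ne'
  set ψ : U → V := fun u => if u = a then v else w with hψ
  have hset : (Finset.univ : Finset (U → V)).filter
      (fun φ => Function.Injective φ ∧ (φ a = v ∧ φ b = w)) = Ext ψ {a, b} := by
    ext φ
    simp [mem_Ext, hψ, hne]
  rw [hset]
  have h2 : ∑ φ ∈ Ext ψ {a, b}, muW T ρ φ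
      = ρ s(v, w) * gmass FM (fun x y => ρ s(x, y)) l ψ {a, b} (fun _ => 1) 1 := by
    unfold gmass
    rw [Finset.mul_sum]
    apply Finset.sum_congr rfl
    intro φ hφ
    rw [mem_Ext] at hφ
    have ha : φ a = v := by rw [hφ.2 a (by simp)]; simp [hψ]
    have hb : φ b = w := by rw [hφ.2 b (by simp)]; simp [hψ, hne]
    unfold muW
    rw [hl3 (fun e => ρ (e.map φ))]
    have h3 : KK (FM (Finset.univ.image φ)ᶜ) (fun x y => ρ s(x, y)) ((canon T).map φ)
        (fun _ => 1) 1 = KK (FM (Finset.univ.image φ)ᶜ) (fun x y => ρ s(x, y))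
          (l.map (fun s => φ s.2)) (fun _ => 1) 1 := by
      apply KK_perm _ (continuous_FM _) _ _ _ _ zero_le_one
      have := (hl4.map φ).symm
      rw [List.map_map] at this
      exact this
    rw [h3]
    simp only [Sym2.map_mk, stepEdge, ha, hb]
    ring
  rw [h2]
  apply mul_le_mul_of_nonneg_left _ (h0 _)
  have hinj : Set.InjOn ψ ({a, b} : Finset U) := by
    intro u hu x hx hux
    simp only [Finset.coe_insert, Finset.coe_singleton, Set.mem_insert_iff,
      Set.mem_singleton_iff] at hu hx
    rcases hu with rfl | rfl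
    · rcases hx with rfl | rfl
      · rfl
      · simp only [hψ, if_true, hne, if_false] at hux
        exact absurd hux hvw
    · rcases hx with rfl | rfl
      · simp only [hψ, if_true, hne, if_false] at hux
        exact absurd hux.symm hvw
      · rfl
  have h3 := gmass_le FM (fun X => continuous_FM X) GB continuous_GB (fun x y => ρ s(x, y))
    (fun x y => h0 _) (fun x y => h1 _) (fun X a c _ _ => by rw [GB_zero])
    (fun m X ρ' a c hc ha hρ0 hρ1 => GB_step m X ρ' a c hc ha hρ1)
    l {a, b} ψ (fun _ => 1) 1 hl1 hinj zero_le_one (fun _ => le_refl _)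
  refine le_trans h3 (le_of_eq ?_)
  have himg : ({a, b} : Finset U).image ψ = {v, w} := by
    rw [Finset.image_insert, Finset.image_singleton]
    simp [hψ, hne]
  have hcV : ({v, w} : Finset V).card ≤ Fintype.card V := Finset.card_le_univ _
  have hcU : ({a, b} : Finset U).card ≤ Fintype.card U := Finset.card_le_univ _
  rw [Finset.card_pair hvw] at hcV
  rw [Finset.card_pair hab.ne] at hcU
  have hX : (({a, b} : Finset U).image ψ)ᶜ.card = Fintype.card V - 2 := by
    rw [himg, Finset.card_compl, Finset.card_pair hvw]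
  rw [GB_one l.length _ v (by rw [himg]; simp) (by rw [hX]; omega), hX]
  have hlen : (l.length : ℝ) = Fintype.card U - 2 := by
    have : l.length = Fintype.card U - 2 := by omega
    rw [this, Nat.cast_sub hcU]
    norm_num
  rw [hlen, Nat.cast_sub hcV]
  push_cast
  congr 1 <;> ring

end Pool.Agent.Lib.NestedTrees
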