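import Mathlib
import Pool.Agent.Lib.MP_d51747_co.Nested.Measures

set_option autoImplicit false
set_option linter.unusedSectionVars false

/-!
Adding a leaf to a tree: the growth measure of the tree is its loss measure plus the growth
measures of the extended maps.
-/

namespace Pool.Agent.Lib.NestedTrees

open Finset MeasureTheory intervalIntegral Classical Pool.Agent.Lib.FracTree

variable {U U' V : Type*} [Fintype U] [Fintype U'] [Fintype V] (e : Option U ≃ U')

/-- Extension of a map by one value. -/
def ext (ψ : U → V) (z : V) : U' → V := fun u' => (e.symm u').elim z ψ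

@[simp] lemma ext_some (ψ : U → V) (z : V) (u : U) : ext e ψ z (e (some u)) = ψ u := by
  simp [ext]

@[simp] lemma ext_none (ψ : U → V) (z : V) : ext e ψ z (e none) = z := by
  simp [ext]

lemma ext_self (φ : U' → V) : ext e (fun u => φ (e (some u))) (φ (e none)) = φ := by
  funext u'
  obtain ⟨o, rfl⟩ := e.surjective u'
  cases o <;> simp [ext]

lemma sum_ext (f : (U' → V) → ℝ) : ∑ φ, f φ = ∑ ψ : U → V, ∑ z : V, f (ext e ψ z) := by
  rw [← Fintype.sum_prod_type' (fun ψ z => f (ext e ψ z))]
  apply Fintype.sum_equiv
    { toFun := fun φ => ((fun u => φ (e (some u))), φ (e none))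
      invFun := fun p => ext e p.1 p.2
      left_inv := fun φ => ext_self e φ
      right_inv := fun p => by simp }
  intro φ
  simp only [Equiv.coe_fn_mk]
  rw [ext_self]

lemma ext_injective (ψ : U → V) (z : V) :
    Function.Injective (ext e ψ z) ↔ Function.Injective ψ ∧ z ∉ Finset.univ.image ψ := by
  constructor
  · intro h
    refine ⟨?_, ?_⟩
    · intro a b hab
      have : ext e ψ z (e (some a)) = ext e ψ z (e (some b)) := by simpa using hab
      simpa using h this
    · intro hz
      rw [Finset.mem_image] at hz
      obtain ⟨a, _, ha⟩ := hz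
      have : ext e ψ z (e (some a)) = ext e ψ z (e none) := by simpa using ha
      simpa using h this
  · rintro ⟨h1, h2⟩ u' v' huv
    obtain ⟨o, rfl⟩ := e.surjective u'
    obtain ⟨o', rfl⟩ := e.surjective v'
    cases o with
    | none =>
      cases o' with
      | none => rfl
      | some b =>
        rw [ext_none, ext_some] at huv
        exact absurd (Finset.mem_image.mpr ⟨b, Finset.mem_univ _, huv.symm⟩) h2
    | some a =>
      cases o' with
      | none =>
        rw [ext_none, ext_some] at huv
        exact absurd (Finset.mem_image.mpr ⟨a, Finset.mem_univ _, huv⟩) h2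
      | some b =>
        rw [ext_some, ext_some] at huv
        rw [h1 huv]

lemma ext_image (ψ : U → V) (z : V) :
    (Finset.univ.image (ext e ψ z))ᶜ = ((Finset.univ.image ψ)ᶜ).erase z := by
  ext v
  simp only [Finset.mem_compl, Finset.mem_image, Finset.mem_univ, true_and, Finset.mem_erase]
  constructor
  · intro h
    refine ⟨?_, ?_⟩
    · rintro rfl
      exact h ⟨e none, by simp⟩
    · rintro ⟨a, ha⟩
      exact h ⟨e (some a), by simpa using ha⟩
  · rintro ⟨h1, h2⟩ ⟨u', hu'⟩
    obtain ⟨o, rfl⟩ := e.surjective u'
    cases o with
    | none => rw [ext_none] at hu'; exact h1 hu'.symm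
    | some a => rw [ext_some] at hu'; exact h2 ⟨a, hu'⟩

/-- The tree `T'` is `T` plus one further vertex. -/
def Extends (T : SimpleGraph U) (T' : SimpleGraph U') : Prop :=
  ∀ a b, T'.Adj (e (some a)) (e (some b)) ↔ T.Adj a b

include e in
lemma card_option_eq : Fintype.card U' = Fintype.card U + 1 := by
  rw [← Fintype.card_congr e, Fintype.card_option]

lemma map_injective : Function.Injective (Sym2.map (fun u : U => e (some u))) :=
  Sym2.map.injective (fun a b h => by simpa using h)

/-- The new vertex is a leaf. -/
lemma exists_leaf (T : SimpleGraph U) (T' : SimpleGraph U') (hT : T.IsTree) (hT' : T'.IsTree)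
    (hE : Extends e T T') : ∃ y : U, ∀ x, T'.Adj (e (some x)) (e none) ↔ x = y := by
  have hU : Nonempty U := hT.connected.nonempty
  obtain ⟨u₀⟩ := hU
  have hcard := card_option_eq e
  have hc1 := hT.card_edgeFinset
  have hc2 := hT'.card_edgeFinset
  have hnt : Nontrivial U' := ⟨e none, e (some u₀), by simp⟩
  have hdeg : 0 < T'.degree (e none) :=
    hT'.connected.preconnected.degree_pos_of_nontrivial _
  rw [SimpleGraph.degree_pos_iff_exists_adj] at hdeg
  obtain ⟨u', hu'⟩ := hdeg
  obtain ⟨o, rfl⟩ := e.surjective u'
  cases o with
  | none => exact absurd rfl hu'.ne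
  | some y =>
    refine ⟨y, fun x => ⟨fun hx => ?_, fun hx => hx ▸ hu'.symm⟩⟩
    by_contra hxy
    set A := T.edgeFinset.image (Sym2.map (fun u : U => e (some u))) with hA
    have hAc : A.card = T.edgeFinset.card := Finset.card_image_of_injective _ (map_injective e)
    have hnot : ∀ u : U, s(e (some u), e none) ∉ A := by
      intro u hu
      rw [hA, Finset.mem_image] at hu
      obtain ⟨ed, _, hed⟩ := hu
      have : e none ∈ Sym2.map (fun u : U => e (some u)) ed := by rw [hed]; simp
      rw [Sym2.mem_map] at this
      obtain ⟨a, _, ha⟩ := this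
      simp at ha
    have hne : s(e (some x), e none) ≠ s(e (some y), e none) := by
      intro h
      rw [Sym2.eq_iff] at h
      rcases h with ⟨h, _⟩ | ⟨h, _⟩
      · exact hxy (by simpa using h)
      · simp at h
    have hsub : insert s(e (some x), e none) (insert s(e (some y), e none) A) ⊆ T'.edgeFinset := by
      intro ed hed
      rw [Finset.mem_insert, Finset.mem_insert] at hed
      rw [SimpleGraph.mem_edgeFinset]
      rcases hed with rfl | rfl | hed
      · exact hx
      · exact hu'.symm
      · rw [hA, Finset.mem_image] at hed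
        obtain ⟨e', he', rfl⟩ := hed
        rw [SimpleGraph.mem_edgeFinset] at he'
        induction e' with
        | _ a b => exact (hE a b).mpr he'
    have := Finset.card_le_card hsub
    rw [Finset.card_insert_of_notMem, Finset.card_insert_of_notMem (hnot y), hAc] at this
    · omega
    · rw [Finset.mem_insert]
      rintro (h | h)
      · exact hne h
      · exact hnot x h

lemma edgeFinset_eq (T : SimpleGraph U) (T' : SimpleGraph U') (hE : Extends e T T') (y : U)
    (hy : ∀ x, T'.Adj (e (some x)) (e none) ↔ x = y) :
    T'.edgeFinset = insert s(e (some y), e none)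
      (T.edgeFinset.image (Sym2.map (fun u : U => e (some u)))) := by
  ext ed
  induction ed with
  | _ a b =>
    rw [SimpleGraph.mem_edgeFinset, SimpleGraph.mem_edgeSet, Finset.mem_insert, Finset.mem_image]
    obtain ⟨o, rfl⟩ := e.surjective a
    obtain ⟨o', rfl⟩ := e.surjective b
    constructor
    · intro h
      cases o with
      | none =>
        cases o' with
        | none => exact absurd rfl h.ne
        | some x =>
          left
          rw [(hy x).mp h.symm]
          exact Sym2.eq_swap
      | some x =>
        cases o' with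
        | none =>
          left
          rw [(hy x).mp h]
        | some x' =>
          right
          refine ⟨s(x, x'), ?_, by simp⟩
          rw [SimpleGraph.mem_edgeFinset]
          exact (hE x x').mp h
    · rintro (h | ⟨e', he', h⟩)
      · have h1 : T'.Adj (e (some y)) (e none) := (hy y).mpr rfl
        rw [Sym2.eq_iff] at h
        rcases h with ⟨h2, h3⟩ | ⟨h2, h3⟩
        · rw [h2, h3]; exact h1
        · rw [h2, h3]; exact h1.symm
      · rw [SimpleGraph.mem_edgeFinset] at he'
        induction e' with
        | _ c d =>
          have h1 : T'.Adj (e (some c)) (e (some d)) := (hE c d).mpr he'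
          rw [Sym2.map_mk, Sym2.eq_iff] at h
          rcases h with ⟨h2, h3⟩ | ⟨h2, h3⟩
          · rw [← h2, ← h3]; exact h1
          · rw [← h2, ← h3]; exact h1.symm

lemma new_notMem (T : SimpleGraph U) (u : U) : s(e (some u), e none) ∉
    T.edgeFinset.image (Sym2.map (fun u : U => e (some u))) := by
  intro hu
  rw [Finset.mem_image] at hu
  obtain ⟨ed, _, hed⟩ := hu
  have : e none ∈ Sym2.map (fun u : U => e (some u)) ed := by rw [hed]; simp
  rw [Sym2.mem_map] at this
  obtain ⟨a, _, ha⟩ := this
  simp at ha

lemma prod_edges (T : SimpleGraph U) (T' : SimpleGraph U') (hE : Extends e T T') (y : U)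
    (hy : ∀ x, T'.Adj (e (some x)) (e none) ↔ x = y) {M : Type*} [CommMonoid M]
    (f : Sym2 U' → M) :
    ∏ ed ∈ T'.edgeFinset, f ed
      = f s(e (some y), e none) *
        ∏ ed ∈ T.edgeFinset, f (Sym2.map (fun u : U => e (some u)) ed) := by
  rw [edgeFinset_eq e T T' hE y hy, Finset.prod_insert (new_notMem e T y),
    Finset.prod_image (fun a _ b _ h => map_injective e h)]

lemma degree_some (T : SimpleGraph U) (T' : SimpleGraph U') (hE : Extends e T T') (y : U)
    (hy : ∀ x, T'.Adj (e (some x)) (e none) ↔ x = y) (u : U) :
    T'.degree (e (some u)) = T.degree u + if u = y then 1 else 0 := by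
  have h1 : T'.neighborFinset (e (some u))
      = (T.neighborFinset u).image (fun x => e (some x)) ∪ (if u = y then {e none} else ∅) := by
    ext v
    obtain ⟨o, rfl⟩ := e.surjective v
    rw [SimpleGraph.mem_neighborFinset, Finset.mem_union, Finset.mem_image]
    cases o with
    | none =>
      rw [hy u]
      by_cases h : u = y
      · simp [h]
      · simp [h]
    | some x =>
      rw [hE u x]
      constructor
      · intro h
        left
        exact ⟨x, by rwa [SimpleGraph.mem_neighborFinset], rfl⟩
      · rintro (⟨x', hx', h⟩ | h)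
        · rw [SimpleGraph.mem_neighborFinset] at hx'
          have : x' = x := by simpa using h
          rwa [this] at hx'
        · split_ifs at h with h2
          · simp at h
          · simp at h
  rw [← SimpleGraph.card_neighborFinset_eq_degree, h1, Finset.card_union_of_disjoint,
    Finset.card_image_of_injective _ (fun a b h => by simpa using h),
    SimpleGraph.card_neighborFinset_eq_degree]
  · congr 1
    split_ifs <;> simp
  · rw [Finset.disjoint_left]
    intro v hv hv2
    rw [Finset.mem_image] at hv
    obtain ⟨x, _, rfl⟩ := hv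
    split_ifs at hv2
    · simp at hv2
    · simp at hv2

lemma degree_none (T' : SimpleGraph U') (y : U)
    (hy : ∀ x, T'.Adj (e (some x)) (e none) ↔ x = y) :
    T'.degree (e none) = 1 := by
  have h1 : T'.neighborFinset (e none) = {e (some y)} := by
    ext v
    obtain ⟨o, rfl⟩ := e.surjective v
    rw [SimpleGraph.mem_neighborFinset, Finset.mem_singleton]
    cases o with
    | none => simp
    | some x =>
      rw [SimpleGraph.adj_comm, hy x]
      simp
  rw [← SimpleGraph.card_neighborFinset_eq_degree, h1, Finset.card_singleton]

lemma canon_perm (T : SimpleGraph U) (T' : SimpleGraph U') (hT : T.IsTree)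
    (hU : 2 ≤ Fintype.card U) (hE : Extends e T T') (y : U)
    (hy : ∀ x, T'.Adj (e (some x)) (e none) ↔ x = y) :
    (canon T').Perm ((canon T).map (fun u => e (some u)) ++ [e (some y)]) := by
  rw [List.perm_iff_count]
  intro v
  obtain ⟨o, rfl⟩ := e.surjective v
  rw [count_canon, List.count_append]
  cases o with
  | none =>
    rw [degree_none e T' y hy]
    have h1 : (((canon T).map (fun u => e (some u))).count (e none)) = 0 := by
      rw [List.count_eq_zero, List.mem_map]
      rintro ⟨a, _, ha⟩
      simp at ha
    rw [h1]
    simp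
  | some u =>
    rw [degree_some e T T' hE y hy u,
      List.count_map_of_injective _ (fun u => e (some u)) (fun a b h => by simpa using h),
      count_canon]
    have hdeg : 1 ≤ T.degree u := by
      have : Nontrivial U := Fintype.one_lt_card_iff_nontrivial.mp (by omega)
      exact hT.connected.preconnected.degree_pos_of_nontrivial u
    by_cases h : u = y
    · subst h
      simp
      omega
    · have h' : ¬ y = u := fun h2 => h h2.symm
      simp [h, h']

/-- **Conservation.** -/
theorem muW_step (T : SimpleGraph U) (T' : SimpleGraph U') (hT : T.IsTree)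
    (hU : 2 ≤ Fintype.card U) (hE : Extends e T T') (y : U)
    (hy : ∀ x, T'.Adj (e (some x)) (e none) ↔ x = y) (ρ : Sym2 V → ℝ) (ψ : U → V) :
    muW T ρ ψ = nuW T ρ y ψ + ∑ z ∈ (Finset.univ.image ψ)ᶜ, muW T' ρ (ext e ψ z) := by
  have h1 := conserve (Finset.univ.image ψ)ᶜ (fun x y => ρ s(x, y)) (ψ y) ((canon T).map ψ)
    (fun _ => 1) 1 zero_le_one
  unfold muW nuW
  rw [h1, mul_add, Finset.mul_sum]
  congr 1
  apply Finset.sum_congr rfl
  intro z _
  rw [prod_edges e T T' hE y hy (fun ed => ρ (ed.map (ext e ψ z))), ext_image]
  have h2 : KK (FM (((Finset.univ.image ψ)ᶜ).erase z)) (fun x y => ρ s(x, y))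
      ((canon T').map (ext e ψ z)) (fun _ => 1) 1
      = KK (FM (((Finset.univ.image ψ)ᶜ).erase z)) (fun x y => ρ s(x, y))
      ((canon T).map ψ ++ [ψ y]) (fun _ => 1) 1 := by
    apply KK_perm _ (continuous_FM _) _ _ _ _ zero_le_one
    have := (canon_perm e T T' hT hU hE y hy).map (ext e ψ z)
    rw [List.map_append, List.map_map] at this
    simpa [Function.comp_def] using this
  rw [h2]
  simp only [Sym2.map_mk, ext_some, ext_none, Sym2.map_map]
  have h3 : ∀ ed : Sym2 U, Sym2.map (ext e ψ z ∘ fun u => e (some u)) ed = Sym2.map ψ ed := by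
    intro ed
    congr 1
    funext u
    simp
  simp only [h3]
  ring

/-- Sums of the growth measure of the larger tree, for functions of the restriction. -/
theorem sum_muW_step (T : SimpleGraph U) (T' : SimpleGraph U') (hT : T.IsTree)
    (hU : 2 ≤ Fintype.card U) (hE : Extends e T T') (y : U)
    (hy : ∀ x, T'.Adj (e (some x)) (e none) ↔ x = y) (ρ : Sym2 V → ℝ) (g : (U → V) → ℝ) :
    ∑ φ : U' → V with Function.Injective φ, muW T' ρ φ * g (fun u => φ (e (some u)))
      = ∑ ψ : U → V with Function.Injective ψ, (muW T ρ ψ - nuW T ρ y ψ) * g ψ := by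
  rw [Finset.sum_filter, sum_ext e, Finset.sum_filter]
  apply Finset.sum_congr rfl
  intro ψ _
  by_cases hψ : Function.Injective ψ
  · rw [if_pos hψ, muW_step e T T' hT hU hE y hy ρ ψ, add_sub_cancel_left, Finset.sum_mul]
    rw [← Finset.sum_filter_add_sum_filter_not Finset.univ
      (fun z => z ∈ (Finset.univ.image ψ)ᶜ)]
    rw [Finset.sum_eq_zero (s := Finset.univ.filter (fun z => z ∉ (Finset.univ.image ψ)ᶜ)), add_zero]
    · apply Finset.sum_congr
      · ext z; simp
      · intro z hz
        rw [if_pos]
        · simp
        · rw [ext_injective]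
          exact ⟨hψ, by simpa using hz⟩
    · intro z hz
      rw [if_neg]
      rw [ext_injective]
      rintro ⟨_, h⟩
      rw [Finset.mem_filter] at hz
      exact hz.2 (Finset.mem_compl.mpr h)
  · rw [if_neg hψ]
    apply Finset.sum_eq_zero
    intro z _
    rw [if_neg]
    rw [ext_injective]
    exact fun h => hψ h.1

end Pool.Agent.Lib.NestedTrees
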