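import Mathlib
import Pool.Agent.Lib.MP_d51747_co.Nested.Leaf
import Pool.Agent.Lib.MP_df0165_co.Frac.Dual

set_option autoImplicit false
set_option linter.unusedSectionVars false

/-!
Edge usage of the growth measure, one step of the chain, and the first tree of the chain.
-/

namespace Pool.Agent.Lib.NestedTrees

open Finset MeasureTheory intervalIntegral Classical Pool.Agent.Lib.FracTree

variable {U U' V : Type*} [Fintype U] [Fintype U'] [Fintype V]

/-- Mass of the copies whose edge `ab` lies on the edge `vw`. -/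
theorem edge_use_le (T : SimpleGraph U) (hT : T.IsTree)
    (ρ : Sym2 V → ℝ) (h0 : ∀ e, 0 ≤ ρ e) (h1 : ∀ e, ρ e ≤ 1) (a b : U) (hab : T.Adj a b)
    (v w : V) (hvw : v ≠ w) (hUV : Fintype.card U ≤ Fintype.card V) :
    ∑ φ : U → V with Function.Injective φ, muW T ρ φ * (if s(φ a, φ b) = s(v, w) then 1 else 0)
      ≤ 2 * (ρ s(v, w) * (((Fintype.card V : ℝ) + 1 - Fintype.card U) / (Fintype.card V - 1))) := by
  have h2 := muW_edge_le T hT ρ h0 h1 a b hab v w hvw hUV
  have h3 := muW_edge_le T hT ρ h0 h1 a b hab w v hvw.symm hUV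
  rw [Sym2.eq_swap (a := w)] at h3
  rw [← Finset.filter_filter, Finset.sum_filter] at h2 h3
  refine le_trans ?_ ((add_le_add h2 h3).trans (le_of_eq (by ring)))
  rw [← Finset.sum_add_distrib]
  apply Finset.sum_le_sum
  intro φ _
  have hμ := muW_nonneg T ρ h0 h1 φ
  by_cases h : s(φ a, φ b) = s(v, w)
  · rw [if_pos h, mul_one]
    rw [Sym2.eq_iff] at h
    rcases h with h | h
    · rw [if_pos h]
      split_ifs <;> linarith
    · rw [if_pos h]
      split_ifs <;> linarith
  · rw [if_neg h, mul_zero]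
    split_ifs <;> linarith

variable (e : Option U ≃ U')

lemma cover_step (T : SimpleGraph U) (T' : SimpleGraph U') (hE : Extends e T T') (y : U)
    (hy : ∀ x, T'.Adj (e (some x)) (e none) ↔ x = y) (φ : U' → V) (hφ : Function.Injective φ)
    (ed : Sym2 V) :
    cover T' φ ed = cover T (fun u => φ (e (some u))) ed
      + if s(φ (e (some y)), φ (e none)) = ed then 1 else 0 := by
  have hmap : ∀ e' : Sym2 U, Sym2.map φ (Sym2.map (fun u : U => e (some u)) e')
      = Sym2.map (fun u => φ (e (some u))) e' := by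
    intro e'
    rw [Sym2.map_map]
    rfl
  have hiff : (∃ e' ∈ T'.edgeSet, Sym2.map φ e' = ed) ↔
      (∃ e' ∈ T.edgeSet, Sym2.map (fun u => φ (e (some u))) e' = ed)
        ∨ s(φ (e (some y)), φ (e none)) = ed := by
    constructor
    · rintro ⟨e', he', h⟩
      rw [← SimpleGraph.mem_edgeFinset, edgeFinset_eq e T T' hE y hy, Finset.mem_insert,
        Finset.mem_image] at he'
      rcases he' with rfl | ⟨e'', he'', rfl⟩
      · right
        rw [← h, Sym2.map_mk]
      · left
        refine ⟨e'', by rwa [SimpleGraph.mem_edgeFinset] at he'', ?_⟩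
        rw [← hmap, h]
    · rintro (⟨e'', he'', h⟩ | h)
      · refine ⟨Sym2.map (fun u : U => e (some u)) e'', ?_, ?_⟩
        · rw [← SimpleGraph.mem_edgeFinset, edgeFinset_eq e T T' hE y hy, Finset.mem_insert,
            Finset.mem_image]
          right
          exact ⟨e'', by rwa [SimpleGraph.mem_edgeFinset], rfl⟩
        · rw [hmap, h]
      · refine ⟨s(e (some y), e none), ?_, ?_⟩
        · rw [SimpleGraph.mem_edgeSet]
          exact (hy y).mpr rfl
        · rw [Sym2.map_mk, h]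
  have hexcl : (∃ e' ∈ T.edgeSet, Sym2.map (fun u => φ (e (some u))) e' = ed) →
      ¬ s(φ (e (some y)), φ (e none)) = ed := by
    rintro ⟨e'', he'', h⟩ h2
    apply new_notMem e T y
    rw [Finset.mem_image]
    refine ⟨e'', by rwa [SimpleGraph.mem_edgeFinset], ?_⟩
    apply Sym2.map.injective hφ
    rw [hmap, h, ← h2, Sym2.map_mk]
  unfold cover
  by_cases h1 : ∃ e' ∈ T.edgeSet, Sym2.map (fun u => φ (e (some u))) e' = ed
  · rw [if_pos (hiff.mpr (Or.inl h1)), if_pos h1, if_neg (hexcl h1), add_zero]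
  · by_cases h2 : s(φ (e (some y)), φ (e none)) = ed
    · rw [if_pos (hiff.mpr (Or.inr h2)), if_neg h1, if_pos h2, zero_add]
    · rw [if_neg (fun h => (hiff.mp h).elim h1 h2), if_neg h1, if_neg h2, zero_add]

/-- One step of the chain: total masses. -/
theorem total_step (T : SimpleGraph U) (T' : SimpleGraph U') (hT : T.IsTree)
    (hU : 2 ≤ Fintype.card U) (hE : Extends e T T') (y : U)
    (hy : ∀ x, T'.Adj (e (some x)) (e none) ↔ x = y) (ρ : Sym2 V → ℝ) :
    ∑ φ : U' → V with Function.Injective φ, muW T' ρ φ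
      = ∑ ψ : U → V with Function.Injective ψ, muW T ρ ψ
        - ∑ ψ : U → V with Function.Injective ψ, nuW T ρ y ψ := by
  have := sum_muW_step e T T' hT hU hE y hy ρ (fun _ => 1)
  simp only [mul_one] at this
  rw [this, Finset.sum_sub_distrib]

/-- One step of the chain: usage of an edge. -/
theorem usage_step (T : SimpleGraph U) (T' : SimpleGraph U') (hT : T.IsTree) (hT' : T'.IsTree)
    (hU : 2 ≤ Fintype.card U) (hE : Extends e T T') (y : U)
    (hy : ∀ x, T'.Adj (e (some x)) (e none) ↔ x = y) (ρ : Sym2 V → ℝ)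
    (h0 : ∀ e, 0 ≤ ρ e) (h1 : ∀ e, ρ e ≤ 1) (v w : V) (hvw : v ≠ w)
    (hUV : Fintype.card U' ≤ Fintype.card V) :
    ∑ φ : U' → V with Function.Injective φ, muW T' ρ φ * cover T' φ s(v, w)
      + ∑ ψ : U → V with Function.Injective ψ, nuW T ρ y ψ * cover T ψ s(v, w)
      ≤ ∑ ψ : U → V with Function.Injective ψ, muW T ρ ψ * cover T ψ s(v, w)
        + 2 * (ρ s(v, w) *
          (((Fintype.card V : ℝ) + 1 - Fintype.card U') / (Fintype.card V - 1))) := by
  have h2 : ∑ φ : U' → V with Function.Injective φ, muW T' ρ φ * cover T' φ s(v, w)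
      = ∑ φ : U' → V with Function.Injective φ,
          muW T' ρ φ * cover T (fun u => φ (e (some u))) s(v, w)
        + ∑ φ : U' → V with Function.Injective φ,
          muW T' ρ φ * (if s(φ (e (some y)), φ (e none)) = s(v, w) then 1 else 0) := by
    rw [← Finset.sum_add_distrib]
    apply Finset.sum_congr rfl
    intro φ hφ
    rw [Finset.mem_filter] at hφ
    rw [cover_step e T T' hE y hy φ hφ.2, mul_add]
  have h3 := sum_muW_step e T T' hT hU hE y hy ρ (fun ψ => cover T ψ s(v, w))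
  have h4 := edge_use_le T' hT' ρ h0 h1 (e (some y)) (e none) ((hy y).mpr rfl) v w hvw hUV
  rw [h2]
  simp only [sub_mul] at h3
  rw [Finset.sum_sub_distrib] at h3
  rw [h3]
  linarith

/-! The tree with two vertices. -/

lemma two_growth (T : SimpleGraph (Fin 2)) (hT : T.IsTree) :
    T.Adj 0 1 ∧ canon T = [] ∧ ∀ f : Sym2 (Fin 2) → ℝ, ∏ e ∈ T.edgeFinset, f e = f s(0, 1) := by
  have hadj : T.Adj 0 1 := by
    have hnt : Nontrivial (Fin 2) := inferInstance
    have hdeg : 0 < T.degree (0 : Fin 2) :=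
      hT.connected.preconnected.degree_pos_of_nontrivial _
    rw [SimpleGraph.degree_pos_iff_exists_adj] at hdeg
    obtain ⟨u, hu⟩ := hdeg
    fin_cases u
    · exact absurd rfl hu.ne
    · exact hu
  obtain ⟨l, hl1, hl2, hl3, hl4⟩ := exists_growth T hT 0 1 hadj
  have hl : l = [] := by
    rw [Fintype.card_fin] at hl2
    exact List.eq_nil_of_length_eq_zero (by omega)
  subst hl
  refine ⟨hadj, ?_, ?_⟩
  · simpa using hl4.symm
  · intro f
    have := hl3 f
    simpa using this

lemma muW_two (T : SimpleGraph (Fin 2)) (hT : T.IsTree) (ρ : Sym2 V → ℝ) (φ : Fin 2 → V) :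
    muW T ρ φ = ρ s(φ 0, φ 1) := by
  obtain ⟨_, h2, h3⟩ := two_growth T hT
  unfold muW
  rw [h2, h3 (fun e => ρ (e.map φ))]
  simp [KK, FM]

lemma cover_two (T : SimpleGraph (Fin 2)) (hT : T.IsTree) (φ : Fin 2 → V) (ed : Sym2 V) :
    cover T φ ed = if s(φ 0, φ 1) = ed then 1 else 0 := by
  obtain ⟨h1, _, _⟩ := two_growth T hT
  unfold cover
  have hiff : (∃ e' ∈ T.edgeSet, Sym2.map φ e' = ed) ↔ s(φ 0, φ 1) = ed := by
    constructor
    · rintro ⟨e', he', h⟩
      induction e' with
      | _ a b =>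
        rw [SimpleGraph.mem_edgeSet] at he'
        rw [← h, Sym2.map_mk]
        fin_cases a <;> fin_cases b
        · exact absurd rfl he'.ne
        · rfl
        · exact Sym2.eq_swap
        · exact absurd rfl he'.ne
    · intro h
      exact ⟨s(0, 1), h1, by rw [Sym2.map_mk]; exact h⟩
  simp only [hiff]

lemma use_two (T : SimpleGraph (Fin 2)) (hT : T.IsTree) (ρ : Sym2 V → ℝ)
    (h0 : ∀ e, 0 ≤ ρ e) (h1 : ∀ e, ρ e ≤ 1) (v w : V) (hvw : v ≠ w)
    (hUV : 2 ≤ Fintype.card V) :
    ∑ φ : Fin 2 → V with Function.Injective φ, muW T ρ φ * cover T φ s(v, w)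
      ≤ 2 * (ρ s(v, w) * (((Fintype.card V : ℝ) + 1 - 2) / (Fintype.card V - 1))) := by
  obtain ⟨hadj, _, _⟩ := two_growth T hT
  have := edge_use_le T hT ρ h0 h1 0 1 hadj v w hvw (by simpa using hUV)
  rw [Fintype.card_fin] at this
  push_cast at this
  refine le_trans (le_of_eq ?_) this
  apply Finset.sum_congr (by ext; simp)
  intro φ _
  rw [cover_two T hT]

/-- The starting mass is twice the number of edges. -/
lemma total_two (T : SimpleGraph (Fin 2)) (hT : T.IsTree) (G : SimpleGraph V) :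
    (2 * G.edgeSet.ncard : ℝ) ≤ ∑ φ : Fin 2 → V with Function.Injective φ,
      muW T (fun ed => if ed ∈ G.edgeSet then 1 else 0) φ := by
  have h1 : (2 * G.edgeSet.ncard : ℝ) = ∑ d : G.Dart, (1 : ℝ) := by
    rw [Finset.sum_const, Finset.card_univ, G.dart_card_eq_twice_card_edges, nsmul_eq_mul,
      ← SimpleGraph.coe_edgeFinset, Set.ncard_coe_finset]
    push_cast
    ring
  rw [h1]
  have h2 : ∑ d : G.Dart, (1 : ℝ)
      = ∑ φ ∈ (Finset.univ : Finset G.Dart).image (fun d => (![d.fst, d.snd] : Fin 2 → V)),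
        (1 : ℝ) := by
    rw [Finset.sum_image]
    intro d _ d' _ h
    have e1 : d.fst = d'.fst := congrFun h 0
    have e2 : d.snd = d'.snd := congrFun h 1
    exact SimpleGraph.Dart.ext _ _ (Prod.ext e1 e2)
  rw [h2]
  have h3 : ∀ φ ∈ (Finset.univ : Finset G.Dart).image (fun d => (![d.fst, d.snd] : Fin 2 → V)),
      (1 : ℝ) = muW T (fun ed => if ed ∈ G.edgeSet then 1 else 0) φ := by
    intro φ hφ
    rw [Finset.mem_image] at hφ
    obtain ⟨d, _, rfl⟩ := hφ
    rw [muW_two T hT]
    simp only [Matrix.cons_val_zero, Matrix.cons_val_one, SimpleGraph.mem_edgeSet]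
    rw [if_pos d.adj]
  rw [Finset.sum_congr rfl h3]
  apply Finset.sum_le_sum_of_subset_of_nonneg
  · intro φ hφ
    rw [Finset.mem_image] at hφ
    obtain ⟨d, _, rfl⟩ := hφ
    rw [Finset.mem_filter]
    refine ⟨Finset.mem_univ _, ?_⟩
    intro i j hij
    fin_cases i <;> fin_cases j
    · rfl
    · exact absurd hij d.adj.ne
    · exact absurd hij d.adj.ne'
    · rfl
  · intro φ _ _
    apply muW_nonneg
    · intro ed; split_ifs <;> norm_num
    · intro ed; split_ifs <;> norm_num

lemma muW_off (T : SimpleGraph U) (G : SimpleGraph V) (φ : U → V)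
    (hφ : ¬ ∀ a b, T.Adj a b → G.Adj (φ a) (φ b)) :
    muW T (fun ed => if ed ∈ G.edgeSet then 1 else 0) φ = 0 := by
  push Not at hφ
  obtain ⟨a, b, hab, hG⟩ := hφ
  unfold muW
  rw [Finset.prod_eq_zero (i := s(a, b)), zero_mul]
  · rw [SimpleGraph.mem_edgeFinset]; exact hab
  · show (if s(φ a, φ b) ∈ G.edgeSet then (1:ℝ) else 0) = 0
    rw [if_neg]
    rwa [SimpleGraph.mem_edgeSet]

lemma nuW_off (T : SimpleGraph U) (G : SimpleGraph V) (y : U) (φ : U → V)
    (hφ : ¬ ∀ a b, T.Adj a b → G.Adj (φ a) (φ b)) :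
    nuW T (fun ed => if ed ∈ G.edgeSet then 1 else 0) y φ = 0 := by
  push Not at hφ
  obtain ⟨a, b, hab, hG⟩ := hφ
  unfold nuW
  rw [Finset.prod_eq_zero (i := s(a, b)), zero_mul]
  · rw [SimpleGraph.mem_edgeFinset]; exact hab
  · show (if s(φ a, φ b) ∈ G.edgeSet then (1:ℝ) else 0) = 0
    rw [if_neg]
    rwa [SimpleGraph.mem_edgeSet]

end Pool.Agent.Lib.NestedTrees
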