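import Mathlib
import Pool.Agent.Lib.MP_d51747_co.Nested.Use

set_option autoImplicit false
set_option linter.unusedSectionVars false

/-!
The chain of trees: real weights of a fractional packing.
-/

namespace Pool.Agent.Lib.NestedTrees

open Finset Classical Pool.Agent.Lib.FracTree

variable {U V : Type*} [Fintype U] [Fintype V]

/-- Indicator weight of the edges of `G`. -/
noncomputable def ind (G : SimpleGraph V) : Sym2 V → ℝ := fun ed => if ed ∈ G.edgeSet then 1 else 0

lemma ind_nonneg (G : SimpleGraph V) (ed : Sym2 V) : 0 ≤ ind G ed := by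
  unfold ind; split_ifs <;> norm_num

lemma ind_le_one (G : SimpleGraph V) (ed : Sym2 V) : ind G ed ≤ 1 := by
  unfold ind; split_ifs <;> norm_num

/-- Growth measure on injective maps. -/
noncomputable def mu (T : SimpleGraph U) (G : SimpleGraph V) (φ : U → V) : ℝ :=
  if Function.Injective φ then muW T (ind G) φ else 0

lemma mu_nonneg (T : SimpleGraph U) (G : SimpleGraph V) (φ : U → V) : 0 ≤ mu T G φ := by
  unfold mu
  split_ifs
  · exact muW_nonneg T _ (ind_nonneg G) (ind_le_one G) φ
  · exact le_refl _

lemma mu_off (T : SimpleGraph U) (G : SimpleGraph V) (φ : U → V) (hφ : φ ∉ Homs T G) :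
    mu T G φ = 0 := by
  rw [mem_Homs] at hφ
  unfold mu
  split_ifs with h
  · exact muW_off T G φ (fun h2 => hφ ⟨h, h2⟩)
  · rfl

/-- Total over all maps (the instances are hidden in this definition). -/
noncomputable def tot (h : (U → V) → ℝ) : ℝ := ∑ φ, h φ

lemma tot_eq [inst : Fintype (U → V)] (h : (U → V) → ℝ) : tot h = ∑ φ, h φ := by
  unfold tot
  exact Finset.sum_congr (by ext; simp) (fun _ _ => rfl)

lemma tot_mu (T : SimpleGraph U) (G : SimpleGraph V) (h : (U → V) → ℝ) :
    tot (fun φ => mu T G φ * h φ)
      = ∑ φ : U → V with Function.Injective φ, muW T (ind G) φ * h φ := by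
  unfold tot
  rw [Finset.sum_filter]
  apply Finset.sum_congr rfl
  intro φ _
  unfold mu
  by_cases hφ : Function.Injective φ <;> simp [hφ]

lemma tot_mu_one (T : SimpleGraph U) (G : SimpleGraph V) :
    tot (mu T G) = ∑ φ : U → V with Function.Injective φ, muW T (ind G) φ := by
  have := tot_mu T G (fun _ => 1)
  simpa using this

/-- Containment of a tree in a tree with one more vertex. -/
lemma exists_equiv {i : ℕ} (S : SimpleGraph (Fin i)) (T : SimpleGraph (Fin (i + 1)))
    (hS : S.IsTree) (hT : T.IsTree) (g : Fin i → Fin (i + 1)) (hg : Function.Injective g)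
    (hadj : ∀ a b, S.Adj a b → T.Adj (g a) (g b)) :
    ∃ e : Option (Fin i) ≃ Fin (i + 1), Extends e S T := by
  have hns : ¬ Function.Surjective g := by
    intro h
    have := Fintype.card_le_of_surjective g h
    simp at this
  unfold Function.Surjective at hns
  push Not at hns
  obtain ⟨m, hm⟩ := hns
  have hinj : Function.Injective (fun o : Option (Fin i) => o.elim m g) := by
    intro o o' h
    cases o with
    | none =>
      cases o' with
      | none => rfl
      | some b => exact absurd h.symm (hm b)
    | some a =>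
      cases o' with
      | none => exact absurd h (hm a)
      | some b => exact congrArg some (hg h)
  have hbij : Function.Bijective (fun o : Option (Fin i) => o.elim m g) := by
    rw [Fintype.bijective_iff_injective_and_card]
    exact ⟨hinj, by simp⟩
  refine ⟨Equiv.ofBijective _ hbij, ?_⟩
  have hle : S ≤ T.comap g := fun a b hab => hadj a b hab
  have hcomap : (T.comap g).IsTree := by
    refine ⟨hS.connected.mono hle, ?_⟩
    have hf : T.IsAcyclic := hT.isAcyclic
    exact hf.comap (⟨g, fun {a b} h => h⟩ : T.comap g →g T) hg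
  have h1 := hS.card_edgeFinset
  have h2 := hcomap.card_edgeFinset
  have h3 : S.edgeFinset ⊆ (T.comap g).edgeFinset := SimpleGraph.edgeFinset_mono hle
  have h4 : S.edgeFinset = (T.comap g).edgeFinset :=
    Finset.eq_of_subset_of_card_le h3 (by omega)
  have h5 : S = T.comap g := SimpleGraph.edgeFinset_inj.mp h4
  intro a b
  show T.Adj (g a) (g b) ↔ S.Adj a b
  rw [h5]
  rfl

/-- One step. -/
lemma step_exists {U' : Type*} [Fintype U'] (e : Option U ≃ U') (S : SimpleGraph U)
    (T : SimpleGraph U') (hU : 2 ≤ Fintype.card U)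
    (hS : S.IsTree) (hT : T.IsTree) (hE : Extends e S T) (G : SimpleGraph V)
    (hV : Fintype.card U + 1 ≤ Fintype.card V) :
    ∃ ν : (U → V) → ℝ, (∀ φ, 0 ≤ ν φ) ∧ (∀ φ, φ ∉ Homs S G → ν φ = 0) ∧
      tot ν ≤ Fintype.card V ∧ tot (mu T G) = tot (mu S G) - tot ν ∧
      ∀ v w, v ≠ w → tot (fun φ => mu T G φ * cover T φ s(v, w))
        + tot (fun φ => ν φ * cover S φ s(v, w))
        ≤ tot (fun φ => mu S G φ * cover S φ s(v, w))
          + 2 * (((Fintype.card V : ℝ) - Fintype.card U) / (Fintype.card V - 1)) := by
  obtain ⟨y, hy⟩ := exists_leaf e S T hS hT hE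
  have hU' : Fintype.card U' = Fintype.card U + 1 := card_option_eq e
  have hn1 : (0 : ℝ) < (Fintype.card V : ℝ) - 1 := by
    have : (3 : ℝ) ≤ Fintype.card V := by
      have : 3 ≤ Fintype.card V := by omega
      exact_mod_cast this
    linarith
  have hni : (0 : ℝ) ≤ (Fintype.card V : ℝ) - Fintype.card U := by
    have : (Fintype.card U : ℝ) ≤ Fintype.card V := by
      have : Fintype.card U ≤ Fintype.card V := by omega
      exact_mod_cast this
    linarith
  refine ⟨fun φ => if Function.Injective φ then nuW S (ind G) y φ else 0, ?_, ?_, ?_, ?_, ?_⟩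
  · intro φ
    simp only
    split_ifs
    · exact nuW_nonneg S _ (ind_nonneg G) (ind_le_one G) y φ
    · exact le_refl _
  · intro φ hφ
    rw [mem_Homs] at hφ
    simp only
    split_ifs with h
    · exact nuW_off S G y φ (fun h2 => hφ ⟨h, h2⟩)
    · rfl
  · unfold tot
    rw [← Finset.sum_filter]
    exact nuW_total_le S hS hU (ind G) (ind_nonneg G) (ind_le_one G) y
  · rw [tot_mu_one, tot_mu_one]
    unfold tot
    rw [← Finset.sum_filter]
    exact total_step e S T hS hU hE y hy (ind G)
  · intro v w hvw
    have h := usage_step e S T hS hT hU hE y hy (ind G) (ind_nonneg G) (ind_le_one G) v w hvw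
      (by omega)
    rw [tot_mu, tot_mu]
    have h2 : tot (fun φ : U → V => (if Function.Injective φ then nuW S (ind G) y φ else 0)
        * cover S φ s(v, w))
        = ∑ φ : U → V with Function.Injective φ, nuW S (ind G) y φ * cover S φ s(v, w) := by
      unfold tot
      rw [Finset.sum_filter]
      apply Finset.sum_congr rfl
      intro φ _
      by_cases hφ : Function.Injective φ <;> simp [hφ]
    rw [h2]
    refine h.trans ?_
    have h3 : (Fintype.card V : ℝ) + 1 - Fintype.card U' = Fintype.card V - Fintype.card U := by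
      rw [hU']
      push_cast
      ring
    rw [h3]
    have h4 : ind G s(v, w) * (((Fintype.card V : ℝ) - Fintype.card U) / (Fintype.card V - 1))
        ≤ 1 * (((Fintype.card V : ℝ) - Fintype.card U) / (Fintype.card V - 1)) :=
      mul_le_mul_of_nonneg_right (ind_le_one G _) (div_nonneg hni hn1.le)
    linarith

/-- Containment is transitive along the chain. -/
lemma chain_contains (k : ℕ) (T : (i : ℕ) → SimpleGraph (Fin i))
    (hnest : ∀ i, 2 ≤ i → i < k → ∃ g : Fin i → Fin (i + 1), Function.Injective g ∧
      ∀ a b, (T i).Adj a b → (T (i + 1)).Adj (g a) (g b)) :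
    ∀ d i, i + d = k → 2 ≤ i → ∃ g : Fin i → Fin k, Function.Injective g ∧
      ∀ a b, (T i).Adj a b → (T k).Adj (g a) (g b) := by
  intro d
  induction d with
  | zero =>
    intro i h1 _
    have : i = k := by omega
    subst this
    exact ⟨id, Function.injective_id, fun a b h => h⟩
  | succ d ih =>
    intro i h1 h2
    obtain ⟨g, hg, hg2⟩ := hnest i h2 (by omega)
    obtain ⟨g', hg', hg2'⟩ := ih (i + 1) (by omega) (by omega)
    exact ⟨g' ∘ g, hg'.comp hg, fun a b h => hg2' _ _ (hg2 a b h)⟩

/-- Push-forward of the growth measure of the largest tree. -/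
lemma push_exists {U' : Type*} [Fintype U'] (S : SimpleGraph U) (T : SimpleGraph U')
    (g : U → U') (hg : Function.Injective g)
    (hadj : ∀ a b, S.Adj a b → T.Adj (g a) (g b)) (G : SimpleGraph V) :
    ∃ p : (U → V) → ℝ, (∀ φ, 0 ≤ p φ) ∧ (∀ φ, φ ∉ Homs S G → p φ = 0) ∧
      tot p = tot (mu T G) ∧
      ∀ ed, tot (fun φ => p φ * cover S φ ed) ≤ tot (fun φ => mu T G φ * cover T φ ed) := by
  have key : ∀ h : (U → V) → ℝ,
      ∑ ψ : U → V, (∑ φ : U' → V, if (fun a => φ (g a)) = ψ then mu T G φ else 0) * h ψ
        = ∑ φ : U' → V, mu T G φ * h (fun a => φ (g a)) := by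
    intro h
    simp_rw [Finset.sum_mul]
    rw [Finset.sum_comm]
    apply Finset.sum_congr rfl
    intro φ _
    rw [Finset.sum_eq_single (fun a => φ (g a))]
    · simp
    · intro ψ _ hψ
      rw [if_neg (fun h2 => hψ h2.symm), zero_mul]
    · intro h2; exact absurd (Finset.mem_univ _) h2
  refine ⟨fun ψ => ∑ φ : U' → V, if (fun a => φ (g a)) = ψ then mu T G φ else 0,
    ?_, ?_, ?_, ?_⟩
  · intro ψ
    apply Finset.sum_nonneg
    intro φ _
    split_ifs
    · exact mu_nonneg T G φ
    · exact le_refl _
  · intro ψ hψ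
    apply Finset.sum_eq_zero
    intro φ _
    split_ifs with h
    · apply mu_off
      intro h2
      rw [mem_Homs] at h2
      apply hψ
      rw [mem_Homs, ← h]
      exact ⟨h2.1.comp hg, fun a b hab => h2.2 _ _ (hadj a b hab)⟩
    · rfl
  · have := key (fun _ => 1)
    unfold tot
    simpa using this
  · intro ed
    unfold tot
    rw [key (fun ψ => cover S ψ ed)]
    apply Finset.sum_le_sum
    intro φ _
    apply mul_le_mul_of_nonneg_left _ (mu_nonneg T G φ)
    by_cases h : ∃ e' ∈ S.edgeSet, Sym2.map (fun a => φ (g a)) e' = ed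
    · obtain ⟨e', he', h⟩ := h
      have h2 : cover T φ ed = 1 := by
        unfold cover
        rw [if_pos]
        refine ⟨Sym2.map g e', ?_, ?_⟩
        · induction e' with
          | _ a b => exact hadj a b he'
        · rw [Sym2.map_map]
          exact h
      rw [h2]
      unfold cover
      split_ifs <;> norm_num
    · have h2 : cover S (fun a => φ (g a)) ed = 0 := by
        unfold cover
        rw [if_neg h]
      rw [h2]
      exact cover_nonneg _ _ _

end Pool.Agent.Lib.NestedTrees
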