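import Mathlib
import Pool.Agent.Lib.MP_d51747_co.Nested.Chain

set_option autoImplicit false
set_option linter.unusedSectionVars false

/-!
Real weights of the fractional packing of a nested chain of trees.
-/

namespace Pool.Agent.Lib.NestedTrees

open Finset Classical Pool.Agent.Lib.FracTree

variable {U V : Type*} [Fintype U] [Fintype V]

lemma tot_add (f g : (U → V) → ℝ) : tot (fun φ => f φ + g φ) = tot f + tot g := by
  unfold tot
  rw [Finset.sum_add_distrib]

lemma tot_mul (c : ℝ) (f : (U → V) → ℝ) : tot (fun φ => c * f φ) = c * tot f := by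
  unfold tot
  rw [Finset.mul_sum]

lemma tot_zero : tot (fun _ : U → V => 0) = 0 := by
  unfold tot
  simp

lemma tot_nonneg (f : (U → V) → ℝ) (hf : ∀ φ, 0 ≤ f φ) : 0 ≤ tot f := by
  unfold tot
  exact Finset.sum_nonneg (fun φ _ => hf φ)

lemma start_mass (T : SimpleGraph (Fin 2)) (hT : T.IsTree) (G : SimpleGraph V) :
    (2 * G.edgeSet.ncard : ℝ) ≤ tot (mu T G) := by
  refine (total_two T hT G).trans (le_of_eq ?_)
  rw [tot_mu_one]
  exact Finset.sum_congr (by ext; simp) (fun _ _ => rfl)

lemma start_use (T : SimpleGraph (Fin 2)) (hT : T.IsTree) (G : SimpleGraph V) (v w : V)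
    (hvw : v ≠ w) (hV : 2 ≤ Fintype.card V) :
    tot (fun φ => mu T G φ * cover T φ s(v, w)) ≤ 2 := by
  have h := use_two T hT (ind G) (ind_nonneg G) (ind_le_one G) v w hvw hV
  have hn1 : (0 : ℝ) < (Fintype.card V : ℝ) - 1 := by
    have : (2 : ℝ) ≤ Fintype.card V := by exact_mod_cast hV
    linarith
  have h1 : ((Fintype.card V : ℝ) + 1 - 2) / (Fintype.card V - 1) = 1 := by
    rw [div_eq_one_iff_eq hn1.ne']
    ring
  rw [h1] at h
  have h2 := ind_le_one G s(v, w)
  have h3 : tot (fun φ => mu T G φ * cover T φ s(v, w))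
      = ∑ φ : Fin 2 → V with Function.Injective φ, muW T (ind G) φ * cover T φ s(v, w) := by
    rw [tot_mu]
    exact Finset.sum_congr (by ext; simp) (fun _ _ => rfl)
  rw [h3]
  linarith

theorem real_weights (k : ℕ) (hk : 2 ≤ k) (T : (i : ℕ) → SimpleGraph (Fin i))
    (hT : ∀ i, 2 ≤ i → i ≤ k → (T i).IsTree)
    (hnest : ∀ i, 2 ≤ i → i < k → ∃ g : Fin i → Fin (i + 1), Function.Injective g ∧
      ∀ a b, (T i).Adj a b → (T (i + 1)).Adj (g a) (g b))
    (G : SimpleGraph V) (hV : k ≤ Fintype.card V)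
    (hG : ((k : ℝ) - 1) * Fintype.card V ≤ 2 * G.edgeSet.ncard) :
    ∃ ω : (i : ℕ) → (Fin i → V) → ℝ, (∀ i, 2 ≤ i → i ≤ k → ∀ φ, 0 ≤ ω i φ) ∧
      (∀ i, 2 ≤ i → i ≤ k → ∀ φ, φ ∉ Homs (T i) G → ω i φ = 0) ∧
      (∀ i, 2 ≤ i → i ≤ k → tot (ω i) = 1) ∧
      ∀ v w, v ≠ w → ∑ i ∈ Finset.Ico 2 (k + 1), tot (fun φ => ω i φ * cover (T i) φ s(v, w))
        ≤ (k - 1) * (2 * Fintype.card V - k) / (Fintype.card V * (Fintype.card V - 1)) := by
  set n : ℝ := (Fintype.card V : ℝ) with hn
  have hkn : (k : ℝ) ≤ n := by rw [hn]; exact_mod_cast hV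
  have hk2 : (2 : ℝ) ≤ k := by exact_mod_cast hk
  have hn1 : 0 < n - 1 := by linarith
  have hn0 : 0 < n := by linarith
  -- the loss measures
  have hstep : ∀ i, 2 ≤ i → i < k → ∃ ν : (Fin i → V) → ℝ, (∀ φ, 0 ≤ ν φ) ∧
      (∀ φ, φ ∉ Homs (T i) G → ν φ = 0) ∧
      tot ν ≤ n ∧ tot (mu (T (i + 1)) G) = tot (mu (T i) G) - tot ν ∧
      ∀ v w, v ≠ w → tot (fun φ => mu (T (i + 1)) G φ * cover (T (i + 1)) φ s(v, w))
        + tot (fun φ => ν φ * cover (T i) φ s(v, w))
        ≤ tot (fun φ => mu (T i) G φ * cover (T i) φ s(v, w)) + 2 * ((n - i) / (n - 1)) := by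
    intro i h2 h3
    obtain ⟨g, hg, hg2⟩ := hnest i h2 h3
    obtain ⟨e, hE⟩ := exists_equiv (T i) (T (i + 1)) (hT i h2 h3.le)
      (hT (i + 1) (by omega) (by omega)) g hg hg2
    have := step_exists e (T i) (T (i + 1)) (by simpa using h2) (hT i h2 h3.le)
      (hT (i + 1) (by omega) (by omega)) hE G (by simp only [Fintype.card_fin]; omega)
    simpa only [Fintype.card_fin] using this
  choose! ν hν0 hνoff hνn hνM hνU using hstep
  -- the push-forwards
  have hpush : ∀ i, 2 ≤ i → i ≤ k → ∃ p : (Fin i → V) → ℝ, (∀ φ, 0 ≤ p φ) ∧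
      (∀ φ, φ ∉ Homs (T i) G → p φ = 0) ∧ tot p = tot (mu (T k) G) ∧
      ∀ ed, tot (fun φ => p φ * cover (T i) φ ed)
        ≤ tot (fun φ => mu (T k) G φ * cover (T k) φ ed) := by
    intro i h2 h3
    obtain ⟨g, hg, hg2⟩ := chain_contains k T hnest (k - i) i (by omega) h2
    exact push_exists (T i) (T k) g hg hg2 G
  choose! p hp0 hpoff hptot hpU using hpush
  -- telescoping
  have htel : ∀ j, 2 ≤ j → j ≤ k →
      tot (mu (T j) G) = tot (mu (T 2) G) - ∑ i ∈ Finset.Ico 2 j, tot (ν i) ∧
      ∀ v w, v ≠ w → tot (fun φ => mu (T j) G φ * cover (T j) φ s(v, w))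
        + ∑ i ∈ Finset.Ico 2 j, tot (fun φ => ν i φ * cover (T i) φ s(v, w))
        ≤ ((j : ℝ) - 1) * (2 * n - j) / (n - 1) := by
    intro j hj
    induction j, hj using Nat.le_induction with
    | base =>
      intro _
      refine ⟨by simp, ?_⟩
      intro v w hvw
      have := start_use (T 2) (hT 2 le_rfl hk) G v w hvw (by omega)
      simp only [Finset.Ico_self, Finset.sum_empty, add_zero]
      refine this.trans (le_of_eq ?_)
      rw [eq_div_iff hn1.ne']
      push_cast
      ring
    | succ j hj ih =>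
      intro hjk
      obtain ⟨ih1, ih2⟩ := ih (by omega)
      refine ⟨?_, ?_⟩
      · rw [hνM j hj (by omega), ih1, Finset.sum_Ico_succ_top hj]
        ring
      · intro v w hvw
        rw [Finset.sum_Ico_succ_top hj]
        have h1 := ih2 v w hvw
        have h2 := hνU j hj (by omega) v w hvw
        have h3 : ((j : ℝ) - 1) * (2 * n - j) / (n - 1) + 2 * ((n - j) / (n - 1))
            = (((j + 1 : ℕ) : ℝ) - 1) * (2 * n - ((j + 1 : ℕ) : ℝ)) / (n - 1) := by
          rw [mul_div_assoc', ← add_div]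
          congr 1
          push_cast
          ring
        rw [← h3]
        linarith
  obtain ⟨hMk, hUk⟩ := htel k hk le_rfl
  set M : ℝ := tot (mu (T k) G) with hM
  have hM2 := start_mass (T 2) (hT 2 le_rfl hk) G
  set L' : ℕ → ℝ := fun i => if i < k then tot (ν i) else 0 with hL'
  have hL'n : ∀ i, 2 ≤ i → L' i ≤ n := by
    intro i hi
    simp only [hL']
    split_ifs with h
    · exact hνn i hi h
    · exact hn0.le
  have hsumL : ∑ i ∈ Finset.Ico 2 (k + 1), (n - L' i) ≤ M := by
    rw [Finset.sum_sub_distrib, Finset.sum_const, Nat.card_Ico, Finset.sum_Ico_succ_top hk]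
    have h1 : ∑ i ∈ Finset.Ico 2 k, L' i = ∑ i ∈ Finset.Ico 2 k, tot (ν i) := by
      apply Finset.sum_congr rfl
      intro i hi
      rw [Finset.mem_Ico] at hi
      simp only [hL', hi.2, if_true]
    have h2 : L' k = 0 := by simp [hL']
    rw [h1, h2, hMk, nsmul_eq_mul]
    have h3 : ((k + 1 - 2 : ℕ) : ℝ) = k - 1 := by
      rw [Nat.cast_sub (by omega)]
      push_cast
      ring
    rw [h3]
    linarith
  have hMpos : 0 < M := by
    refine lt_of_lt_of_le ?_ hsumL
    have h1 : n - L' k ≤ ∑ i ∈ Finset.Ico 2 (k + 1), (n - L' i) := by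
      apply Finset.single_le_sum (f := fun i => n - L' i)
      · intro i hi
        rw [Finset.mem_Ico] at hi
        have := hL'n i hi.1
        linarith
      · rw [Finset.mem_Ico]
        omega
    have h2 : L' k = 0 := by simp [hL']
    linarith
  refine ⟨fun i φ => 1 / n * ((if i < k then ν i φ else 0) + ((n - L' i) / M) * p i φ),
    ?_, ?_, ?_, ?_⟩
  · intro i h2 h3 φ
    have h4 := hL'n i h2
    have h5 := hp0 i h2 h3 φ
    apply mul_nonneg (by positivity)
    apply add_nonneg
    · split_ifs with h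
      · exact hν0 i h2 h φ
      · exact le_refl _
    · exact mul_nonneg (div_nonneg (by linarith) hMpos.le) h5
  · intro i h2 h3 φ hφ
    have h4 := hpoff i h2 h3 φ hφ
    have : (if i < k then ν i φ else 0) = 0 := by
      split_ifs with h
      · exact hνoff i h2 h φ hφ
      · rfl
    simp only [this, h4]
    ring
  · intro i h2 h3
    rw [tot_mul, tot_add, tot_mul, hptot i h2 h3]
    have h4 : tot (fun φ => if i < k then ν i φ else 0) = L' i := by
      simp only [hL']
      split_ifs with h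
      · rfl
      · exact tot_zero
    rw [h4]
    field_simp
    ring
  · intro v w hvw
    have h1 : ∀ i ∈ Finset.Ico 2 (k + 1), tot (fun φ =>
        (1 / n * ((if i < k then ν i φ else 0) + ((n - L' i) / M) * p i φ))
          * cover (T i) φ s(v, w))
        ≤ 1 / n * (tot (fun φ => (if i < k then ν i φ else 0) * cover (T i) φ s(v, w))
          + ((n - L' i) / M) * tot (fun φ => mu (T k) G φ * cover (T k) φ s(v, w))) := by
      intro i hi
      rw [Finset.mem_Ico] at hi
      have h2 : tot (fun φ =>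
        (1 / n * ((if i < k then ν i φ else 0) + ((n - L' i) / M) * p i φ))
          * cover (T i) φ s(v, w))
          = 1 / n * (tot (fun φ => (if i < k then ν i φ else 0) * cover (T i) φ s(v, w))
          + ((n - L' i) / M) * tot (fun φ => p i φ * cover (T i) φ s(v, w))) := by
        rw [← tot_mul ((n - L' i) / M), ← tot_add, ← tot_mul]
        congr 1
        funext φ
        ring
      rw [h2]
      apply mul_le_mul_of_nonneg_left _ (by positivity)
      have h3 := hpU i hi.1 (by omega) s(v, w)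
      have h4 : 0 ≤ (n - L' i) / M := div_nonneg (by linarith [hL'n i hi.1]) hMpos.le
      have h5 := mul_le_mul_of_nonneg_left h3 h4
      linarith
    refine (Finset.sum_le_sum h1).trans ?_
    rw [← Finset.mul_sum, Finset.sum_add_distrib, ← Finset.sum_mul, ← Finset.sum_div]
    have h2 : ∑ i ∈ Finset.Ico 2 (k + 1),
        tot (fun φ => (if i < k then ν i φ else 0) * cover (T i) φ s(v, w))
        = ∑ i ∈ Finset.Ico 2 k, tot (fun φ => ν i φ * cover (T i) φ s(v, w)) := by
      rw [Finset.sum_Ico_succ_top hk]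
      have h3 : tot (fun φ => (if k < k then ν k φ else 0) * cover (T k) φ s(v, w)) = 0 := by
        simp only [lt_irrefl, if_false, zero_mul]
        exact tot_zero
      rw [h3, add_zero]
      apply Finset.sum_congr rfl
      intro i hi
      rw [Finset.mem_Ico] at hi
      simp only [hi.2, if_true]
    rw [h2]
    have h3 : (∑ i ∈ Finset.Ico 2 (k + 1), (n - L' i)) / M ≤ 1 := by
      rw [div_le_one hMpos]
      exact hsumL
    have h4 : 0 ≤ tot (fun φ => mu (T k) G φ * cover (T k) φ s(v, w)) :=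
      tot_nonneg _ (fun φ => mul_nonneg (mu_nonneg _ _ _) (cover_nonneg _ _ _))
    have h5 := mul_le_mul_of_nonneg_right h3 h4
    have h6 := hUk v w hvw
    have h7 : ((k : ℝ) - 1) * (2 * n - k) / (n * (n - 1))
        = 1 / n * (((k : ℝ) - 1) * (2 * n - k) / (n - 1)) := by
      field_simp
    rw [h7]
    apply mul_le_mul_of_nonneg_left _ (by positivity)
    linarith

end Pool.Agent.Lib.NestedTrees
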