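import Mathlib
import Pool.Agent.Lib.MP_d51747_co.Nested.Weights
import Pool.Agent.Lib.MP_df0165_co.Frac.Rational

set_option autoImplicit false
set_option linter.unusedSectionVars false

/-!
From real weights to integer multiplicities.
-/

namespace Pool.Agent.Lib.NestedTrees

open Finset Classical Pool.Agent.Lib.FracTree

/-- Integer multiplicities from real weights satisfying rational equations and inequalities. -/
theorem exists_nat_system {Φ E J : Type*} [Fintype Φ] [Fintype E] (grp : J → Φ → Prop)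
    (cov : E → Φ → Prop) (ω : Φ → ℝ) (hω : ∀ φ, 0 ≤ ω φ)
    (h1 : ∀ j, ∑ φ, (if grp j φ then ω φ else 0) = 1) (u : ℚ)
    (h2 : ∀ e, ∑ φ, (if cov e φ then ω φ else 0) ≤ (u : ℝ)) :
    ∃ (N : ℕ) (c : Φ → ℕ), 0 < N ∧ (∀ φ, ω φ = 0 → c φ = 0) ∧
      (∀ j, ∑ φ, (if grp j φ then c φ else 0) = N) ∧
      ∀ e, ((∑ φ, (if cov e φ then c φ else 0) : ℕ) : ℚ) ≤ u * N := by
  obtain ⟨f, hf1, hfpos⟩ := exists_rat_functional
    (((Finset.univ.image ω) ∪
      (Finset.univ.image (fun e => (u : ℝ) - ∑ φ, (if cov e φ then ω φ else 0)))).filter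
        (fun x => 0 < x)) (fun s hs => (Finset.mem_filter.mp hs).2)
  have hq0 : ∀ φ, 0 ≤ f (ω φ) := by
    intro φ
    rcases (hω φ).eq_or_lt with h | h
    · rw [← h, map_zero]
    · exact (hfpos _ (Finset.mem_filter.mpr ⟨Finset.mem_union_left _
        (Finset.mem_image_of_mem ω (Finset.mem_univ _)), h⟩)).le
  have hfu : f (u : ℝ) = u := by
    have h := f.map_smul u 1
    rw [Rat.smul_def, mul_one, hf1, smul_eq_mul, mul_one] at h
    exact h
  have hqs : ∀ j, ∑ φ, (if grp j φ then f (ω φ) else 0) = 1 := by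
    intro j
    have h := congrArg f (h1 j)
    rw [map_sum, hf1] at h
    refine Eq.trans ?_ h
    apply Finset.sum_congr rfl
    intro φ _
    split_ifs <;> simp
  have hqe : ∀ e, ∑ φ, (if cov e φ then f (ω φ) else 0) ≤ u := by
    intro e
    have h : 0 ≤ f ((u : ℝ) - ∑ φ, (if cov e φ then ω φ else 0)) := by
      rcases (sub_nonneg.mpr (h2 e)).eq_or_lt with h | h
      · rw [← h, map_zero]
      · exact (hfpos _ (Finset.mem_filter.mpr ⟨Finset.mem_union_right _
          (Finset.mem_image_of_mem (fun e => (u : ℝ) - ∑ φ, (if cov e φ then ω φ else 0))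
            (Finset.mem_univ e)), h⟩)).le
    rw [map_sub, hfu, map_sum] at h
    have h3 : ∑ φ, (if cov e φ then f (ω φ) else 0)
        = ∑ φ, f (if cov e φ then ω φ else 0) := by
      apply Finset.sum_congr rfl
      intro φ _
      split_ifs <;> simp
    rw [h3]
    linarith
  -- common denominator
  set N : ℕ := ∏ φ, (f (ω φ)).den with hN
  have hN0 : 0 < N := Finset.prod_pos (fun φ _ => (f (ω φ)).den_pos)
  have hc : ∀ φ, ∃ c : ℕ, (c : ℚ) = f (ω φ) * N := by
    intro φ
    obtain ⟨d, hd⟩ : (f (ω φ)).den ∣ N := Finset.dvd_prod_of_mem _ (Finset.mem_univ φ)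
    refine ⟨(f (ω φ)).num.toNat * d, ?_⟩
    have h1 : (((f (ω φ)).num.toNat : ℕ) : ℚ) = (f (ω φ)).num := by
      have : (((f (ω φ)).num.toNat : ℕ) : ℤ) = (f (ω φ)).num :=
        Int.toNat_of_nonneg (Rat.num_nonneg.mpr (hq0 φ))
      exact_mod_cast congrArg (fun z : ℤ => (z : ℚ)) this
    have h2 : f (ω φ) * ((f (ω φ)).den : ℚ) = (f (ω φ)).num := Rat.mul_den_eq_num _
    rw [hd]
    push_cast
    rw [h1, ← h2]
    ring
  choose c hc using hc
  refine ⟨N, c, hN0, ?_, ?_, ?_⟩
  · intro φ hφ
    have := hc φ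
    rw [hφ, map_zero, zero_mul] at this
    exact_mod_cast this
  · intro j
    have h : ((∑ φ, (if grp j φ then c φ else 0) : ℕ) : ℚ) = (N : ℚ) := by
      push_cast
      calc ∑ φ, (if grp j φ then (c φ : ℚ) else 0)
          = ∑ φ, (if grp j φ then f (ω φ) else 0) * N := by
            apply Finset.sum_congr rfl
            intro φ _
            split_ifs
            · rw [hc φ]
            · rw [zero_mul]
        _ = N := by rw [← Finset.sum_mul, hqs j, one_mul]
    exact_mod_cast h
  · intro e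
    have h : ((∑ φ, (if cov e φ then c φ else 0) : ℕ) : ℚ)
        = (∑ φ, (if cov e φ then f (ω φ) else 0)) * N := by
      push_cast
      rw [Finset.sum_mul]
      apply Finset.sum_congr rfl
      intro φ _
      split_ifs
      · rw [hc φ]
      · rw [zero_mul]
    rw [h]
    exact mul_le_mul_of_nonneg_right (hqe e) (Nat.cast_nonneg _)

/-- A finite multiset of total multiplicity `N` as a function on `Fin N`. -/
lemma exists_listing {A : Type*} [Fintype A] (c : A → ℕ) (N : ℕ) (hN : ∑ a, c a = N) :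
    ∃ f : Fin N → A, (∀ j, c (f j) ≠ 0) ∧
      ∀ P : A → Prop, (Finset.univ.filter (fun j => P (f j))).card
        = ∑ a, (if P a then c a else 0) := by
  have hcard : Fintype.card (Σ a : A, Fin (c a)) = N := by
    rw [Fintype.card_sigma]
    simpa using hN
  let E : Fin N ≃ Σ a : A, Fin (c a) := (Fintype.equivFinOfCardEq hcard).symm
  refine ⟨fun j => (E j).1, ?_, ?_⟩
  · intro j h
    have h2 : (E j).2.1 < c (E j).1 := (E j).2.2
    simp only at h
    omega
  · intro P
    rw [Finset.card_filter]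
    have h1 : ∑ j : Fin N, (if P (E j).1 then 1 else 0)
        = ∑ s : (Σ a : A, Fin (c a)), (if P s.1 then 1 else 0) :=
      Fintype.sum_equiv E _ _ (fun j => rfl)
    rw [h1, Fintype.sum_sigma]
    apply Finset.sum_congr rfl
    intro a _
    simp only
    split_ifs <;> simp

end Pool.Agent.Lib.NestedTrees
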