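import Mathlib
import Pool.Agent.Lib.MP_d51747_co.Nested.Integer

set_option autoImplicit false
set_option linter.unusedSectionVars false

/-!
Fractional packing of a nested chain of trees: final assembly.
-/

namespace Pool.Agent.Lib.NestedTrees

open Finset Classical Pool.Agent.Lib.FracTree

lemma sum_sigma_range {M : Type*} [AddCommMonoid M] (k n : ℕ)
    (F : (i : ℕ) → (Fin i → Fin n) → M) :
    ∑ φ : (Σ i : Fin (k + 1), (Fin (i : ℕ) → Fin n)),
        (if 2 ≤ (φ.1 : ℕ) then F φ.1 φ.2 else 0)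
      = ∑ i ∈ Finset.Ico 2 (k + 1), ∑ φ, F i φ := by
  rw [Fintype.sum_sigma]
  simp only
  rw [Fin.sum_univ_eq_sum_range (fun i : ℕ => ∑ φ : Fin i → Fin n, if 2 ≤ i then F i φ else 0)
    (k + 1)]
  have h : ∀ i : ℕ, (∑ φ : Fin i → Fin n, if 2 ≤ i then F i φ else 0)
      = if 2 ≤ i then ∑ φ : Fin i → Fin n, F i φ else 0 := by
    intro i
    split_ifs <;> simp
  simp only [h]
  rw [← Finset.sum_filter]
  apply Finset.sum_congr
  · ext i
    simp only [Finset.mem_filter, Finset.mem_range, Finset.mem_Ico]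
    omega
  · intro i _
    rfl

/-- The usage of the edge `e` by the listed copies. -/
def useSet (k n N : ℕ) (T : (i : ℕ) → SimpleGraph (Fin i)) (f : (i : ℕ) → Fin N → Fin i → Fin n)
    (e : Sym2 (Fin n)) : Set (ℕ × Fin N) :=
  {p | 2 ≤ p.1 ∧ p.1 ≤ k ∧ ∃ e' ∈ (T p.1).edgeSet, Sym2.map (f p.1 p.2) e' = e}

lemma ncard_useSet (k n N : ℕ) (T : (i : ℕ) → SimpleGraph (Fin i))
    (f : (i : ℕ) → Fin N → Fin i → Fin n) (e : Sym2 (Fin n)) :
    (useSet k n N T f e).ncard = ∑ i ∈ Finset.Ico 2 (k + 1),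
      (Finset.univ.filter (fun j => ∃ e' ∈ (T i).edgeSet, Sym2.map (f i j) e' = e)).card := by
  have h1 : useSet k n N T f e
      = (((Finset.Ico 2 (k + 1)) ×ˢ (Finset.univ : Finset (Fin N))).filter
        (fun p => ∃ e' ∈ (T p.1).edgeSet, Sym2.map (f p.1 p.2) e' = e) : Finset (ℕ × Fin N)) := by
    ext p
    simp only [useSet, Set.mem_ofPred_eq, Finset.coe_filter, Finset.mem_product, Finset.mem_Ico,
      Finset.mem_univ, and_true]
    constructor
    · rintro ⟨h2, h3, h4⟩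
      exact ⟨⟨h2, by omega⟩, h4⟩
    · rintro ⟨⟨h2, h3⟩, h4⟩
      exact ⟨h2, by omega, h4⟩
  rw [h1, Set.ncard_coe_finset, Finset.card_filter, Finset.sum_product]
  apply Finset.sum_congr rfl
  intro i _
  rw [Finset.card_filter]

theorem nested_packing (k n : ℕ) (hk : 2 ≤ k) (hn : 1 ≤ n)
    (T : (i : ℕ) → SimpleGraph (Fin i)) (hT : ∀ i, 2 ≤ i → i ≤ k → (T i).IsTree)
    (hnest : ∀ i, 2 ≤ i → i < k → ∃ g : Fin i → Fin (i + 1), Function.Injective g ∧
      ∀ a b, (T i).Adj a b → (T (i + 1)).Adj (g a) (g b))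
    (G : SimpleGraph (Fin n)) (hG : (k - 1) * n ≤ 2 * G.edgeSet.ncard) :
    k ≤ n ∧ ∃ (N : ℕ) (f : (i : ℕ) → Fin N → Fin i → Fin n), 0 < N ∧
      (∀ i, 2 ≤ i → i ≤ k → ∀ j, Function.Injective (f i j) ∧
        ∀ a b, (T i).Adj a b → G.Adj (f i j a) (f i j b)) ∧
      ∀ e ∈ G.edgeSet, n * (n - 1) * (useSet k n N T f e).ncard ≤ (k - 1) * (2 * n - k) * N := by
  -- `k ≤ n`
  have hkn : k ≤ n := by
    have h1 : G.edgeSet.ncard ≤ n.choose 2 := by
      rw [← SimpleGraph.coe_edgeFinset, Set.ncard_coe_finset]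
      simpa using G.card_edgeFinset_le_card_choose_two
    have h2 : 2 * n.choose 2 = n * (n - 1) := by
      rw [Nat.choose_two_right]
      exact Nat.mul_div_cancel' (Nat.even_mul_pred_self n).two_dvd
    have h3 : (k - 1) * n ≤ (n - 1) * n := by
      calc (k - 1) * n ≤ 2 * G.edgeSet.ncard := hG
        _ ≤ 2 * n.choose 2 := by omega
        _ = n * (n - 1) := h2
        _ = (n - 1) * n := Nat.mul_comm _ _
    have h4 := Nat.le_of_mul_le_mul_right h3 hn
    omega
  refine ⟨hkn, ?_⟩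
  have hG' : ((k : ℝ) - 1) * Fintype.card (Fin n) ≤ 2 * G.edgeSet.ncard := by
    rw [Fintype.card_fin]
    have h1 : (((k - 1) * n : ℕ) : ℝ) ≤ ((2 * G.edgeSet.ncard : ℕ) : ℝ) := by exact_mod_cast hG
    rw [Nat.cast_mul, Nat.cast_sub (by omega), Nat.cast_mul] at h1
    simpa using h1
  obtain ⟨ω, hω0, hωoff, hω1, hωU⟩ := real_weights k hk T hT hnest G
    (by rw [Fintype.card_fin]; exact hkn) hG'
  rw [Fintype.card_fin] at hωU
  -- the rational system
  set u : ℚ := ((k : ℚ) - 1) * (2 * n - k) / (n * (n - 1)) with hu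
  have hcast : ((u : ℚ) : ℝ) = ((k : ℝ) - 1) * (2 * n - k) / (n * (n - 1)) := by
    rw [hu]
    push_cast
    rfl
  obtain ⟨N, c, hN0, hcoff, hc1, hcU⟩ := exists_nat_system
    (Φ := (Σ i : Fin (k + 1), (Fin (i : ℕ) → Fin n))) (E := {e : Sym2 (Fin n) // e ∈ G.edgeSet})
    (J := {i : ℕ // 2 ≤ i ∧ i ≤ k})
    (fun j φ => (φ.1 : ℕ) = j.1)
    (fun e φ => 2 ≤ (φ.1 : ℕ) ∧ ∃ e' ∈ (T (φ.1 : ℕ)).edgeSet, Sym2.map φ.2 e' = e.1)
    (fun φ => if 2 ≤ (φ.1 : ℕ) then ω φ.1 φ.2 else 0)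
    (by
      intro φ
      split_ifs with h
      · exact hω0 _ h (by have := φ.1.2; omega) _
      · exact le_refl _)
    (by
      rintro ⟨j, hj2, hjk⟩
      rw [Fintype.sum_sigma, Finset.sum_eq_single (⟨j, by omega⟩ : Fin (k + 1))]
      · simp only [if_true, hj2]
        rw [← hω1 j hj2 hjk, tot_eq]
      · intro i _ hi
        apply Finset.sum_eq_zero
        intro φ _
        rw [if_neg]
        intro h
        apply hi
        exact Fin.ext h
      · intro h; exact absurd (Finset.mem_univ _) h)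
    u
    (by
      rintro ⟨e, he⟩
      simp only
      refine le_trans (le_of_eq (Eq.trans (b := ∑ φ : (Σ i : Fin (k + 1), (Fin (i : ℕ) → Fin n)),
        (if 2 ≤ (φ.1 : ℕ) then ω φ.1 φ.2 * cover (T (φ.1 : ℕ)) φ.2 e else 0)) ?_
        (sum_sigma_range k n (fun i φ => ω i φ * cover (T i) φ e)))) ?_
      · apply Finset.sum_congr rfl
        intro φ _
        unfold cover
        by_cases h2 : 2 ≤ (φ.1 : ℕ)
        · by_cases h3 : ∃ e' ∈ (T (φ.1 : ℕ)).edgeSet, Sym2.map φ.2 e' = e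
          · rw [if_pos ⟨h2, h3⟩, if_pos h2, if_pos h2, if_pos h3, mul_one]
          · rw [if_neg (fun h => h3 h.2), if_pos h2, if_neg h3, mul_zero]
        · rw [if_neg (fun h => h2 h.1), if_neg h2]
      rw [hcast]
      induction e with
      | _ v w =>
        rw [SimpleGraph.mem_edgeSet] at he
        refine le_trans (le_of_eq ?_) (hωU v w he.ne)
        apply Finset.sum_congr rfl
        intro i _
        rw [tot_eq])
  -- multiplicities
  set cc : (i : ℕ) → (Fin i → Fin n) → ℕ := fun i φ =>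
    if h : i < k + 1 then c ⟨⟨i, h⟩, φ⟩ else 0 with hcc
  have hccN : ∀ i, 2 ≤ i → i ≤ k → ∑ φ, cc i φ = N := by
    intro i h2 h3
    have h := hc1 ⟨i, h2, h3⟩
    rw [← h, Fintype.sum_sigma, Finset.sum_eq_single (⟨i, by omega⟩ : Fin (k + 1))]
    · apply Finset.sum_congr rfl
      intro φ _
      simp only [hcc, if_true]
      rw [dif_pos (by omega)]
    · intro i' _ hi
      apply Finset.sum_eq_zero
      intro φ _
      rw [if_neg]
      intro h
      apply hi
      exact Fin.ext h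
    · intro h; exact absurd (Finset.mem_univ _) h
  have hlist : ∀ i, ∃ f : Fin N → (Fin i → Fin n), 2 ≤ i → i ≤ k →
      (∀ j, cc i (f j) ≠ 0) ∧ ∀ P : (Fin i → Fin n) → Prop,
        (Finset.univ.filter (fun j => P (f j))).card = ∑ a, (if P a then cc i a else 0) := by
    intro i
    by_cases h : 2 ≤ i ∧ i ≤ k
    · obtain ⟨f, hf1, hf2⟩ := exists_listing (cc i) N (hccN i h.1 h.2)
      exact ⟨f, fun _ _ => ⟨hf1, hf2⟩⟩
    · exact ⟨fun _ _ => ⟨0, hn⟩, fun h2 h3 => absurd ⟨h2, h3⟩ h⟩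
  choose f hf using hlist
  refine ⟨N, f, hN0, ?_, ?_⟩
  · intro i h2 h3 j
    have h4 := (hf i h2 h3).1 j
    have h5 : ω i (f i j) ≠ 0 := by
      intro h6
      apply h4
      simp only [hcc]
      rw [dif_pos (by omega)]
      apply hcoff
      simp only [h2, if_true]
      exact h6
    have h7 : f i j ∈ Homs (T i) G := by
      by_contra h8
      exact h5 (hωoff i h2 h3 _ h8)
    exact mem_Homs.mp h7
  · intro e he
    have h1 := hcU ⟨e, he⟩
    simp only at h1
    have h2 : (useSet k n N T f e).ncard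
        = ∑ φ : (Σ i : Fin (k + 1), (Fin (i : ℕ) → Fin n)),
          (if 2 ≤ (φ.1 : ℕ) ∧ ∃ e' ∈ (T (φ.1 : ℕ)).edgeSet, Sym2.map φ.2 e' = e then c φ else 0) := by
      rw [ncard_useSet]
      have h3 : ∀ φ : (Σ i : Fin (k + 1), (Fin (i : ℕ) → Fin n)),
          (if 2 ≤ (φ.1 : ℕ) ∧ ∃ e' ∈ (T (φ.1 : ℕ)).edgeSet, Sym2.map φ.2 e' = e then c φ else 0)
          = if 2 ≤ (φ.1 : ℕ) then
              (if ∃ e' ∈ (T (φ.1 : ℕ)).edgeSet, Sym2.map φ.2 e' = e then cc φ.1 φ.2 else 0)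
            else 0 := by
        intro φ
        have h4 : cc φ.1 φ.2 = c φ := by
          simp only [hcc]
          rw [dif_pos φ.1.2]
        rw [h4]
        by_cases h2 : 2 ≤ (φ.1 : ℕ)
        · by_cases h3 : ∃ e' ∈ (T (φ.1 : ℕ)).edgeSet, Sym2.map φ.2 e' = e
          · rw [if_pos ⟨h2, h3⟩, if_pos h2, if_pos h3]
          · rw [if_neg (fun h => h3 h.2), if_pos h2, if_neg h3]
        · rw [if_neg (fun h => h2 h.1), if_neg h2]
      rw [Finset.sum_congr rfl (fun φ _ => h3 φ), sum_sigma_range k n (fun i φ =>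
        if ∃ e' ∈ (T i).edgeSet, Sym2.map φ e' = e then cc i φ else 0)]
      apply Finset.sum_congr rfl
      intro i hi
      rw [Finset.mem_Ico] at hi
      convert (hf i hi.1 (by omega)).2 (fun φ => ∃ e' ∈ (T i).edgeSet, Sym2.map φ e' = e)
    replace h1 : ((useSet k n N T f e).ncard : ℚ) ≤ u * N := by
      rw [h2]
      convert h1
    -- clear denominators
    have hn2 : (2 : ℚ) ≤ n := by
      have : 2 ≤ n := by omega
      exact_mod_cast this
    have hpos : (0 : ℚ) < n * (n - 1) := by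
      apply mul_pos <;> linarith
    have h5 : ((n : ℚ) * (n - 1)) * (useSet k n N T f e).ncard
        ≤ (((k : ℚ) - 1) * (2 * n - k)) * N := by
      have h6 := mul_le_mul_of_nonneg_left h1 hpos.le
      refine h6.trans (le_of_eq ?_)
      rw [hu, ← mul_assoc, mul_div_cancel₀ _ hpos.ne']
    have h7 : ((n * (n - 1) * (useSet k n N T f e).ncard : ℕ) : ℚ)
        ≤ (((k - 1) * (2 * n - k) * N : ℕ) : ℚ) := by
      rw [Nat.cast_mul, Nat.cast_mul, Nat.cast_sub (by omega), Nat.cast_mul, Nat.cast_mul,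
        Nat.cast_sub (by omega), Nat.cast_sub (by omega)]
      push_cast
      exact h5
    exact_mod_cast h7

lemma kappa_le (k n : ℕ) (hk : 2 ≤ k) (hkn : k ≤ n) :
    (k - 1) * (2 * n - k) ≤ n * (n - 1) := by
  obtain ⟨m, rfl⟩ := Nat.exists_eq_add_of_le hkn
  obtain ⟨k', rfl⟩ := Nat.exists_eq_add_of_le hk
  have e1 : 2 + k' - 1 = k' + 1 := by omega
  have e2 : 2 * (2 + k' + m) - (2 + k') = 2 + k' + 2 * m := by omega
  have e3 : 2 + k' + m - 1 = k' + m + 1 := by omega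
  rw [e1, e2, e3]
  nlinarith [Nat.zero_le (m * m), Nat.zero_le m]

end Pool.Agent.Lib.NestedTrees
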